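import Pool.Agent.K3h93.UR.Line

/-!
Consequences: curves without differentiable self-maps.
-/

namespace K93M

open MeasureTheory Filter Topology K93U
open scoped ENNReal

/-- The map `g` has an invertible derivative within `E` at each point of `E`. -/
def Reg (g : ℂ → ℂ) (E : Set ℂ) : Prop :=
  ∀ y ∈ E, ∃ L : ℂ ≃L[ℝ] ℂ, HasFDerivWithinAt g (L : ℂ →L[ℝ] ℂ) E y

theorem Reg.mono {g : ℂ → ℂ} {E E' : Set ℂ} (h : Reg g E) (hE : E' ⊆ E) : Reg g E' := by
  intro y hy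
  obtain ⟨L, hL⟩ := h y (hE hy)
  exact ⟨L, hL.mono hE⟩

theorem Reg.continuousOn {g : ℂ → ℂ} {E : Set ℂ} (h : Reg g E) : ContinuousOn g E := by
  intro y hy
  obtain ⟨L, hL⟩ := h y hy
  exact hL.continuousWithinAt

theorem Reg.id (E : Set ℂ) : Reg (fun z => z) E := fun y _ =>
  ⟨ContinuousLinearEquiv.refl ℝ ℂ, hasFDerivWithinAt_id y E⟩

/-- Every set is modelled on the plane. -/
theorem modelled_univ (A : Set ℂ) : Modelled Set.univ A := by
  intro x _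
  refine ⟨x, 1, fun ε hε => ⟨1, one_pos, fun r hr _ => ⟨ContinuousLinearMap.id ℝ ℂ, fun z => ?_,
    fun z => ?_, fun y _ _ => ⟨y, Set.mem_univ _, ?_⟩⟩⟩⟩
  · simp
  · simp
  · simp only [ContinuousLinearMap.coe_id', id_eq, sub_self, norm_zero]
    positivity

/-- A subset of `K` is modelled on `K`. -/
theorem modelled_subset {K A : Set ℂ} (h : A ⊆ K) : Modelled K A := by
  intro x _
  refine ⟨x, 1, fun ε hε => ⟨1, one_pos, fun r hr _ => ⟨ContinuousLinearMap.id ℝ ℂ, fun z => ?_,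
    fun z => ?_, fun y hy _ => ⟨y, h hy, ?_⟩⟩⟩⟩
  · simp
  · simp
  · simp only [ContinuousLinearMap.coe_id', id_eq, sub_self, norm_zero]
    positivity

/-- The plane has Assouad dimension two. -/
theorem hom_univ {s : ℝ} (hs : 2 < s) : Hom Set.univ s := by
  classical
  refine ⟨49, fun z ρ R hρ hρR _ => ?_⟩
  have hR : 1 ≤ R / ρ := by rwa [le_div_iff₀ hρ, one_mul]
  set n : ℕ := ⌈2 * (R / ρ)⌉₊ with hn
  refine ⟨((Finset.Icc (-(n:ℤ)) n) ×ˢ (Finset.Icc (-(n:ℤ)) n)).image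
    fun j : ℤ × ℤ => (⟨z.re + j.1 * (ρ / 2), z.im + j.2 * (ρ / 2)⟩ : ℂ), ?_, ?_⟩
  · have h1 : ((((Finset.Icc (-(n:ℤ)) n) ×ˢ (Finset.Icc (-(n:ℤ)) n)).image
        fun j : ℤ × ℤ => (⟨z.re + j.1 * (ρ / 2), z.im + j.2 * (ρ / 2)⟩ : ℂ)).card : ℝ) ≤
        (2 * n + 1) ^ 2 := by
      have h2 := Finset.card_image_le (s := (Finset.Icc (-(n:ℤ)) n) ×ˢ (Finset.Icc (-(n:ℤ)) n))
        (f := fun j : ℤ × ℤ => (⟨z.re + j.1 * (ρ / 2), z.im + j.2 * (ρ / 2)⟩ : ℂ))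
      rw [Finset.card_product, Int.card_Icc] at h2
      have h3 : ((n:ℤ) + 1 - -(n:ℤ)).toNat = 2 * n + 1 := by omega
      rw [h3] at h2
      calc _ ≤ (((2 * n + 1) * (2 * n + 1) : ℕ) : ℝ) := by exact_mod_cast h2
        _ = (2 * n + 1) ^ 2 := by push_cast; ring
    have h4 : (n:ℝ) < 2 * (R / ρ) + 1 := Nat.ceil_lt_add_one (by linarith)
    have h5 : (R / ρ) ^ 2 ≤ (R / ρ) ^ s := by
      calc (R / ρ) ^ 2 = (R / ρ) ^ (2:ℝ) := by
            rw [← Real.rpow_natCast]; norm_num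
        _ ≤ (R / ρ) ^ s := Real.rpow_le_rpow_of_exponent_le hR hs.le
    have hn0 : (0:ℝ) ≤ n := Nat.cast_nonneg n
    nlinarith
  · rintro w ⟨-, hw⟩
    rw [Metric.mem_ball, dist_eq_norm] at hw
    have hn1 : R ≤ n * (ρ / 2) := by
      have h := Nat.le_ceil (2 * (R / ρ))
      have h2 : 2 * (R / ρ) * (ρ / 2) ≤ n * (ρ / 2) := mul_le_mul_of_nonneg_right h (by positivity)
      have h3 : 2 * (R / ρ) * (ρ / 2) = R := by field_simp
      linarith
    have hρ2 : 0 < ρ / 2 := by positivity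
    have gen : ∀ a b : ℝ, |a - b| < R → ∃ j : ℤ, (-(n:ℤ) ≤ j ∧ j ≤ n) ∧
        0 ≤ a - (b + j * (ρ / 2)) ∧ a - (b + j * (ρ / 2)) < ρ / 2 := by
      intro a b h1
      rw [abs_lt] at h1
      have h4 : ((⌊(a - b) / (ρ / 2)⌋ : ℤ) : ℝ) * (ρ / 2) ≤ a - b := by
        rw [← le_div_iff₀ hρ2]; exact Int.floor_le _
      have h5 : a - b < (((⌊(a - b) / (ρ / 2)⌋ : ℤ) : ℝ) + 1) * (ρ / 2) := by
        rw [← div_lt_iff₀ hρ2]; exact Int.lt_floor_add_one _
      refine ⟨⌊(a - b) / (ρ / 2)⌋, ⟨?_, ?_⟩, by linarith, by linarith⟩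
      · rw [Int.le_floor]
        push_cast
        rw [le_div_iff₀ hρ2]
        nlinarith
      · have h6 : ((⌊(a - b) / (ρ / 2)⌋ : ℤ) : ℝ) * (ρ / 2) < (n:ℝ) * (ρ / 2) := by linarith
        have h7 := lt_of_mul_lt_mul_right h6 hρ2.le
        exact_mod_cast h7.le
    have hre : |w.re - z.re| < R := by
      have h2 := Complex.abs_re_le_norm (w - z)
      rw [Complex.sub_re] at h2
      exact lt_of_le_of_lt h2 hw
    have him : |w.im - z.im| < R := by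
      have h2 := Complex.abs_im_le_norm (w - z)
      rw [Complex.sub_im] at h2
      exact lt_of_le_of_lt h2 hw
    obtain ⟨j1, hj1, a1, a2⟩ := gen _ _ hre
    obtain ⟨j2, hj2, b1, b2⟩ := gen _ _ him
    simp only [Set.mem_iUnion, Finset.mem_image, Finset.mem_product, Finset.mem_Icc]
    refine ⟨⟨z.re + j1 * (ρ / 2), z.im + j2 * (ρ / 2)⟩, ⟨(j1, j2), ⟨hj1, hj2⟩, rfl⟩, ?_⟩
    rw [Metric.mem_ball, dist_eq_norm]
    refine lt_of_le_of_lt (norm_le_abs _) ?_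
    rw [Complex.sub_re, Complex.sub_im]
    simp only
    rw [abs_of_nonneg a1, abs_of_nonneg b1]
    linarith

/-- The preimage of a line under a map with invertible derivatives is modelled on the line. -/
theorem preimage_modelled {K E : Set ℂ} {ψ : ℂ → ℂ} (hψ : Reg ψ E) {a b : ℂ} (hb : b ≠ 0)
    (h : ∀ y ∈ E, (ψ y - a) / b ∈ K) : Modelled K E := by
  intro x hx
  obtain ⟨L, hL⟩ := hψ x hx
  set M : ℂ ≃L[ℝ] ℂ :=
    L.trans (ContinuousLinearEquiv.smulLeft (Units.mk0 b⁻¹ (inv_ne_zero hb))) with hM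
  have hMz : ∀ z, M z = b⁻¹ * L z := by
    intro z
    rw [hM]
    simp
  set B : ℝ := max 1 (max ‖(M : ℂ →L[ℝ] ℂ)‖ ‖(M.symm : ℂ →L[ℝ] ℂ)‖) with hB
  have hB0 : 0 < B := lt_of_lt_of_le one_pos (le_max_left _ _)
  have hB1 : ‖(M : ℂ →L[ℝ] ℂ)‖ ≤ B := (le_max_left _ _).trans (le_max_right _ _)
  have hB2 : ‖(M.symm : ℂ →L[ℝ] ℂ)‖ ≤ B := (le_max_right _ _).trans (le_max_right _ _)
  have hb0 : 0 < ‖b‖ := norm_pos_iff.mpr hb
  refine ⟨(ψ x - a) / b, B, fun ε hε => ?_⟩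
  have hd := (hasFDerivWithinAt_iff_isLittleO.mp hL).def
    (c := ε * ‖b‖ / B) (by positivity)
  rw [Metric.nhdsWithin_basis_ball.eventually_iff] at hd
  obtain ⟨ρ, hρ, hd⟩ := hd
  refine ⟨ρ, hρ, fun r hr hrρ => ⟨(M.symm : ℂ →L[ℝ] ℂ), fun z => ?_, fun z => ?_, fun y hy hyx =>
    ⟨(ψ y - a) / b, h y hy, ?_⟩⟩⟩
  · exact ((M.symm : ℂ →L[ℝ] ℂ).le_opNorm z).trans
      (mul_le_mul_of_nonneg_right hB2 (norm_nonneg _))
  · have h1 := (M : ℂ →L[ℝ] ℂ).le_opNorm (M.symm z)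
    have h2 : (M : ℂ →L[ℝ] ℂ) (M.symm z) = z := M.apply_symm_apply z
    rw [h2] at h1
    exact h1.trans (mul_le_mul_of_nonneg_right hB1 (norm_nonneg _))
  · have h1 := hd (x := y) ⟨by
      rw [Metric.mem_ball, dist_eq_norm]
      exact lt_of_le_of_lt hyx hrρ, hy⟩
    have e : y - x - (M.symm : ℂ →L[ℝ] ℂ) ((ψ y - a) / b - (ψ x - a) / b) =
        -((M.symm : ℂ →L[ℝ] ℂ) (b⁻¹ * (ψ y - ψ x - L (y - x)))) := by
      have e1 : y - x = (M.symm : ℂ →L[ℝ] ℂ) (b⁻¹ * L (y - x)) := by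
        rw [← hMz]
        exact (M.symm_apply_apply _).symm
      have e2 : (ψ y - a) / b - (ψ x - a) / b = b⁻¹ * (ψ y - ψ x) := by
        field_simp
        ring
      rw [e2, ← map_neg]
      conv_lhs => rw [e1]
      rw [← map_sub]
      congr 1
      ring
    rw [e, norm_neg]
    refine ((M.symm : ℂ →L[ℝ] ℂ).le_opNorm _).trans ?_
    rw [norm_mul, norm_inv]
    have h2 : ‖ψ y - ψ x - L (y - x)‖ ≤ ε * ‖b‖ / B * r :=
      h1.trans (mul_le_mul_of_nonneg_left hyx (by positivity))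
    calc ‖(M.symm : ℂ →L[ℝ] ℂ)‖ * (‖b‖⁻¹ * ‖ψ y - ψ x - L (y - x)‖)
        ≤ B * (‖b‖⁻¹ * (ε * ‖b‖ / B * r)) := by
          apply mul_le_mul hB2 _ (by positivity) hB0.le
          exact mul_le_mul_of_nonneg_left h2 (by positivity)
      _ = ε * r := by field_simp

/-! ### no differentiable self-maps -/

/-- The property of a curve used below: a differentiable map which moves all the points of a set of
points of the trace into other points of the trace lives on a small set. -/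
def Rig (f : C(unitInterval, ℂ)) : Prop :=
  ∀ (E : Set ℂ) (ψ : ℂ → ℂ), Reg ψ E →
    (∀ y ∈ E, y ∈ Set.range f ∧ ψ y ∈ Set.range f ∧ ψ y ≠ y) → dimH E ≤ 3 / 2

theorem arc_id {f : C(unitInterval, ℂ)}
    (h1 : ∀ s t : unitInterval, s < t → dimH (f '' Set.Icc s t) = 7 / 4) (h2 : Rig f)
    {s t : unitInterval} (hst : s < t) {ψ : ℂ → ℂ} (hψ : Reg ψ (f '' Set.Icc s t))
    (hm : ∀ y ∈ f '' Set.Icc s t, ψ y ∈ Set.range f) : ∀ y ∈ f '' Set.Icc s t, ψ y = y := by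
  rintro _ ⟨u0, hu0, rfl⟩
  by_contra hne
  have hcont : ContinuousOn (fun u => ψ (f u)) (Set.Icc s t) :=
    hψ.continuousOn.comp f.continuous.continuousOn (Set.mapsTo_image _ _)
  have hev : ∀ᶠ u in 𝓝[Set.Icc s t] u0, ψ (f u) ≠ f u := by
    have h3 : ContinuousWithinAt (fun u => ψ (f u) - f u) (Set.Icc s t) u0 :=
      (hcont u0 hu0).sub f.continuous.continuousWithinAt
    have h4 := h3.eventually_ne (sub_ne_zero.mpr hne)
    exact h4.mono fun u hu => sub_ne_zero.mp hu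
  rw [Metric.nhdsWithin_basis_ball.eventually_iff] at hev
  obtain ⟨δ, hδ, hev⟩ := hev
  -- a small interval
  obtain ⟨s', t', hst', hs', ht', hsub⟩ : ∃ s' t' : unitInterval, s' < t' ∧ s ≤ s' ∧ t' ≤ t ∧
      ∀ u ∈ Set.Icc s' t', dist u u0 < δ := by
    rcases lt_or_eq_of_le hu0.2 with h | h
    · have hu1 : (u0:ℝ) < t := h
      have ht1 : (t:ℝ) ≤ 1 := t.2.2
      have hu00 : (0:ℝ) ≤ u0 := u0.2.1
      refine ⟨u0, ⟨min (t:ℝ) (u0 + δ / 2), le_min t.2.1 (by linarith),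
        (min_le_left _ _).trans ht1⟩, ?_, hu0.1, ?_, fun u hu => ?_⟩
      · show (u0:ℝ) < min (t:ℝ) (u0 + δ / 2)
        exact lt_min hu1 (by linarith)
      · show min (t:ℝ) (u0 + δ / 2) ≤ t
        exact min_le_left _ _
      · have h5 : (u0:ℝ) ≤ u := hu.1
        have h6 : (u:ℝ) ≤ min (t:ℝ) (u0 + δ / 2) := hu.2
        have h7 := h6.trans (min_le_right _ _)
        rw [Subtype.dist_eq, Real.dist_eq, abs_of_nonneg (by linarith)]
        linarith
    · have hs1 : (s:ℝ) < u0 := by rw [h]; exact hst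
      have hs0 : (0:ℝ) ≤ s := s.2.1
      have hu01 : (u0:ℝ) ≤ 1 := u0.2.2
      refine ⟨⟨max (s:ℝ) (u0 - δ / 2), hs0.trans (le_max_left _ _),
        max_le s.2.2 (by linarith)⟩, u0, ?_, ?_, hu0.2, fun u hu => ?_⟩
      · show max (s:ℝ) (u0 - δ / 2) < u0
        exact max_lt hs1 (by linarith)
      · show (s:ℝ) ≤ max (s:ℝ) (u0 - δ / 2)
        exact le_max_left _ _
      · have h5 : (u:ℝ) ≤ u0 := hu.2
        have h6 : max (s:ℝ) (u0 - δ / 2) ≤ u := hu.1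
        have h7 := (le_max_right _ _).trans h6
        rw [Subtype.dist_eq, Real.dist_eq, abs_of_nonpos (by linarith)]
        linarith
  have hsubE : f '' Set.Icc s' t' ⊆ f '' Set.Icc s t := by
    apply Set.image_mono
    exact Set.Icc_subset_Icc hs' ht'
  have h5 := h2 (f '' Set.Icc s' t') ψ (hψ.mono hsubE) (by
    rintro _ ⟨u, hu, rfl⟩
    exact ⟨⟨u, rfl⟩, hm _ (hsubE ⟨u, hu, rfl⟩),
      hev ⟨hsub u hu, Set.Icc_subset_Icc hs' ht' hu⟩⟩)
  rw [h1 s' t' hst'] at h5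
  rw [show (7 / 4 : ℝ≥0∞) = ENNReal.ofReal (7 / 4) by
      rw [ENNReal.ofReal_div_of_pos (by norm_num)]; norm_num,
    show (3 / 2 : ℝ≥0∞) = ENNReal.ofReal (3 / 2) by
      rw [ENNReal.ofReal_div_of_pos (by norm_num)]; norm_num,
    ENNReal.ofReal_le_ofReal_iff (by norm_num)] at h5
  norm_num at h5

theorem arc_acc {f : C(unitInterval, ℂ)}
    (h1 : ∀ s t : unitInterval, s < t → dimH (f '' Set.Icc s t) = 7 / 4) {s t : unitInterval}
    (hst : s < t) : ∃ᶠ z in 𝓝[≠] (f s), z ∈ f '' Set.Icc s t := by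
  have hs : f s ∈ f '' Set.Icc s t := ⟨s, ⟨le_rfl, hst.le⟩, rfl⟩
  have hnt : (f '' Set.Icc s t).Nontrivial := by
    by_contra hcon
    rw [Set.not_nontrivial_iff] at hcon
    have h2 := h1 s t hst
    rw [dimH_subsingleton hcon] at h2
    have h3 : (7 / 4 : ℝ≥0∞) = ENNReal.ofReal (7 / 4) := by
      rw [ENNReal.ofReal_div_of_pos (by norm_num)]; norm_num
    rw [h3] at h2
    have h4 : 0 < ENNReal.ofReal (7 / 4) := by
      rw [ENNReal.ofReal_pos]; norm_num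
    exact absurd h2 h4.ne
  have hpre : IsPreconnected (f '' Set.Icc s t) :=
    isPreconnected_Icc.image f f.continuous.continuousOn
  exact accPt_iff_frequently_nhdsNE.mp (hpre.preperfect_of_nontrivial hnt _ hs)

theorem hol_id {f : C(unitInterval, ℂ)}
    (h1 : ∀ s t : unitInterval, s < t → dimH (f '' Set.Icc s t) = 7 / 4) (h2 : Rig f)
    {U : Set ℂ} (hU : IsOpen U) (hc : IsPreconnected U) (hne : (U ∩ Set.range f).Nonempty)
    {ψ : ℂ → ℂ} (hψ : DifferentiableOn ℂ ψ U) (hnc : ¬ ∃ c, ∀ z ∈ U, ψ z = c)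
    (hm : ∀ z ∈ U ∩ Set.range f, ψ z ∈ Set.range f) : ∀ z ∈ U, ψ z = z := by
  have hψa : AnalyticOnNhd ℂ ψ U := hψ.analyticOnNhd hU
  have hda : AnalyticOnNhd ℂ (deriv ψ) U := hψa.deriv
  obtain ⟨_, hzU, ⟨u0, rfl⟩⟩ := hne
  -- small intervals of times
  have small : ∀ (V : Set ℂ), IsOpen V → ∀ u : unitInterval, f u ∈ V → ∃ s t : unitInterval,
      s < t ∧ f '' Set.Icc s t ⊆ V := by
    intro V hV u hu
    have hev : ∀ᶠ v in 𝓝 u, f v ∈ V := f.continuous.continuousAt.eventually (hV.mem_nhds hu)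
    rw [Metric.eventually_nhds_iff] at hev
    obtain ⟨δ, hδ, hev⟩ := hev
    rcases lt_or_eq_of_le u.2.2 with h | h
    · have hu00 := u.2.1
      refine ⟨u, ⟨min 1 ((u:ℝ) + δ / 2), le_min zero_le_one (by linarith),
        min_le_left _ _⟩, ?_, ?_⟩
      · show (u:ℝ) < min 1 ((u:ℝ) + δ / 2)
        exact lt_min h (by linarith)
      rintro _ ⟨v, hv, rfl⟩
      apply hev
      have h5 : (u:ℝ) ≤ v := hv.1
      have h6 : (v:ℝ) ≤ min 1 ((u:ℝ) + δ / 2) := hv.2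
      have h7 := h6.trans (min_le_right _ _)
      rw [Subtype.dist_eq, Real.dist_eq, abs_of_nonneg (by linarith)]
      linarith
    · have hu01 := u.2.2
      refine ⟨⟨max 0 ((u:ℝ) - δ / 2), le_max_left _ _, max_le zero_le_one (by linarith)⟩, u,
        ?_, ?_⟩
      · show max 0 ((u:ℝ) - δ / 2) < (u:ℝ)
        have hu1 : (0:ℝ) < u := by rw [h]; exact one_pos
        exact max_lt hu1 (by linarith)
      rintro _ ⟨v, hv, rfl⟩
      apply hev
      have h5 : (v:ℝ) ≤ u := hv.2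
      have h6 : max 0 ((u:ℝ) - δ / 2) ≤ v := hv.1
      have h7 := (le_max_right _ _).trans h6
      rw [Subtype.dist_eq, Real.dist_eq, abs_of_nonpos (by linarith)]
      linarith
  obtain ⟨s0, t0, hst0, hsub0⟩ := small U hU u0 hzU
  -- a point with non-zero derivative
  obtain ⟨u1, hu1, hd1⟩ : ∃ u ∈ Set.Icc s0 t0, deriv ψ (f u) ≠ 0 := by
    by_contra hcon
    push Not at hcon
    apply hnc
    have hz : Set.EqOn (deriv ψ) 0 U := by
      apply hda.eqOn_of_preconnected_of_frequently_eq analyticOnNhd_const hc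
        (hsub0 ⟨s0, ⟨le_rfl, hst0.le⟩, rfl⟩)
      refine (arc_acc h1 hst0).mono ?_
      rintro _ ⟨u, hu, rfl⟩
      exact hcon u hu
    refine ⟨ψ (f u0), fun z hz' => ?_⟩
    exact hU.is_const_of_deriv_eq_zero hc hψ (fun w hw => hz hw) hz' hzU
  have hVopen : IsOpen {z | z ∈ U ∧ deriv ψ z ≠ 0} := by
    have h3 : {z | z ∈ U ∧ deriv ψ z ≠ 0} = U ∩ deriv ψ ⁻¹' {0}ᶜ := rfl
    rw [h3]
    exact hda.continuousOn.isOpen_inter_preimage hU isOpen_compl_singleton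
  obtain ⟨s1, t1, hst1, hsub1⟩ := small {z | z ∈ U ∧ deriv ψ z ≠ 0} hVopen u1
    ⟨hsub0 ⟨u1, hu1, rfl⟩, hd1⟩
  have hreg : Reg ψ (f '' Set.Icc s1 t1) := by
    intro y hy
    obtain ⟨hyU, hyd⟩ := hsub1 hy
    refine ⟨ContinuousLinearEquiv.smulLeft (Units.mk0 (deriv ψ y) hyd), ?_⟩
    have h3 : HasDerivAt ψ (deriv ψ y) y :=
      (hψ.differentiableAt (hU.mem_nhds hyU)).hasDerivAt
    have h4 : HasFDerivAt ψ ((ContinuousLinearMap.toSpanSingleton ℂ (deriv ψ y)).restrictScalars ℝ)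
        y := h3.hasFDerivAt.restrictScalars ℝ
    have e : ((ContinuousLinearEquiv.smulLeft (Units.mk0 (deriv ψ y) hyd) : ℂ ≃L[ℝ] ℂ) :
        ℂ →L[ℝ] ℂ) = (ContinuousLinearMap.toSpanSingleton ℂ (deriv ψ y)).restrictScalars ℝ := by
      ext <;> simp [mul_comm]
    rw [e]
    exact h4.hasFDerivWithinAt
  have hid := arc_id h1 h2 hst1 hreg (fun y hy => by
    refine hm y ⟨(hsub1 hy).1, ?_⟩
    obtain ⟨u, -, rfl⟩ := hy
    exact ⟨u, rfl⟩)
  have hfin : Set.EqOn ψ (fun z => z) U := by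
    apply hψa.eqOn_of_preconnected_of_frequently_eq analyticOnNhd_id hc
      (hsub1 ⟨s1, ⟨le_rfl, hst1.le⟩, rfl⟩).1
    exact (arc_acc h1 hst1).mono fun z hz => hid z hz
  exact hfin

end K93M
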