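import Pool.Agent.K3h93.UM.Lim

/-!
The dimension of sets with several images in the special sets of a curve.
-/

namespace K93M

open H974 Finset H342P H984P H984N H443P H443U K93U K93G MeasureTheory Filter Topology
open scoped ENNReal

variable {n : ℕ}

/-- The map is uniformly close to linear maps at all scales below `1 / (m + 1)`. -/
def GMod (Λ M m : ℕ) (Y : Set ℂ) (g : ℂ → ℂ) : Prop :=
  ∀ y ∈ Y, ∀ ρ : ℝ, 0 < ρ → ρ ≤ 1 / ((m:ℝ) + 1) → ∃ L : ℂ →L[ℝ] ℂ,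
    (∀ z, ‖L z‖ ≤ Λ * ‖z‖) ∧ (∀ z, ‖z‖ ≤ Λ * ‖L z‖) ∧
    ∀ y' ∈ Y, ‖y' - y‖ ≤ ρ → ‖g y' - g y - L (y' - y)‖ ≤ ρ / (64 * M)

set_option maxRecDepth 8000 in
theorem detM {D : ℂ → ℝ} (hD : ∀ x y : ℂ, D y ≤ D x + ‖y - x‖)
    {N : Fin n → ℂ → ℝ → Set C(unitInterval, ℂ)} {η : ℝ} {f : C(unitInterval, ℂ)} {K : Set ℂ}
    {c C2 γ ε : ℝ} {Λ k M m Z : ℕ}
    (hγ : 0 < γ) (hε : 0 < ε) (hΛ : 1 ≤ Λ) (hpar : ParM n c C2 γ ε Λ k M)
    (hη : 1 / ((m:ℝ) + 1) ≤ η)
    (hfew : FewM D N K Λ M ⌈(M:ℝ) ^ (γ + ε)⌉₊ ε m Z f) {Y : Set ℂ} {κ : ℂ → ℂ}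
    {g : Fin n → ℂ → ℂ}
    (hY : ∀ i, ∀ y ∈ Y, ∀ (z : ℂ) (s : ℝ), dist (g i y) z < s → 8 * s ≤ η → f ∈ N i z s)
    (hdp : ∀ i, ∀ y ∈ Y, 1 / ((m:ℝ) + 1) ≤ D (g i y))
    (hsp : ∀ y ∈ Y, ∀ i i', i ≠ i' → 1 / ((m:ℝ) + 1) ≤ dist (g i y) (g i' y)) {X0 : ℝ}
    (hX : ∀ y ∈ Y, ‖κ y‖ ≤ X0 ∧ ∀ i, ‖g i y‖ ≤ X0) (hZ : X0 / rm Λ M m 0 ≤ Z)
    (hsmall : ∀ y ∈ Y, ∀ y' ∈ Y, dist y y' ≤ 8 * M * rm Λ M m 0)
    (hmod : UMod K Λ M m Y κ) (hg : ∀ i, GMod Λ M m Y (g i)) :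
    dimH Y ≤ ENNReal.ofReal (γ + 6 * ε) := by
  classical
  have hM2 := hpar.two
  have hM : 1 ≤ M := by omega
  have hM0 : (0:ℝ) < M := by exact_mod_cast (by omega : 0 < M)
  have hM2' : (2:ℝ) ≤ M := by exact_mod_cast hM2
  have hM1 : (1:ℝ) ≤ M := by linarith
  have hΛ' : (1:ℝ) ≤ Λ := by exact_mod_cast hΛ
  have hN0 : (0:ℝ) ≤ m := Nat.cast_nonneg m
  set G : ℕ := ⌈(M:ℝ) ^ (γ + ε)⌉₊ with hG
  have hr0 := fun j => rm_pos hΛ hM m j
  have hrsJ : ∀ J, rm Λ M m J = rm Λ M m 0 * (1 / (M:ℝ)) ^ J := by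
    intro J
    unfold rm rs
    simp
  have hbd := fun j => rm_bd hΛ hM m j
  have hrM : ∀ j, rm Λ M m j * M ≤ Λ * rm Λ M m j * M := by
    intro j
    have h3 := hr0 j
    have : rm Λ M m j * M ≤ Λ * (rm Λ M m j * M) := le_mul_of_one_le_left (by positivity) hΛ'
    linarith
  have hr1 : ∀ j, rm Λ M m j ≤ rm Λ M m j * M := fun j =>
    le_mul_of_one_le_right (hr0 j).le hM1
  have h1m : (0:ℝ) < 1 / (m + 1) := by positivity
  have h12 : (1:ℝ) / (2 * (m + 1)) = 1 / 2 * (1 / (m + 1)) := by field_simp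
  -- labels
  have hlab : ∀ (J : ℕ) (z : ℂ), ‖z - xm Λ M m J (rd (z / (rm Λ M m J : ℂ)))‖ ≤ rm Λ M m J := by
    intro J z
    have hJ := hr0 J
    have hJ' : (rm Λ M m J : ℂ) ≠ 0 := by exact_mod_cast hJ.ne'
    have h1 := (rd_spec (z / (rm Λ M m J : ℂ))).1
    have e : z - xm Λ M m J (rd (z / (rm Λ M m J : ℂ))) =
        (rm Λ M m J : ℂ) * (z / (rm Λ M m J : ℂ) - qc (rd (z / (rm Λ M m J : ℂ)))) := by
      unfold xm
      field_simp
    rw [e, norm_mul, Complex.norm_real, Real.norm_eq_abs, abs_of_pos hJ]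
    calc rm Λ M m J * ‖z / (rm Λ M m J : ℂ) - qc (rd (z / (rm Λ M m J : ℂ)))‖
        ≤ rm Λ M m J * 1 := mul_le_mul_of_nonneg_left h1 hJ.le
      _ = rm Λ M m J := mul_one _
  have hlabb : ∀ (J : ℕ) (z : ℂ), ‖z‖ ≤ X0 →
      b0 (rd (z / (rm Λ M m J : ℂ))) ≤ (Z * M ^ J : ℕ) := by
    intro J z hz
    have hJ := hr0 J
    have h1 : ‖z / (rm Λ M m J : ℂ)‖ ≤ Z * (M:ℝ) ^ J := by
      rw [norm_div, Complex.norm_real, Real.norm_eq_abs, abs_of_pos hJ, div_le_iff₀ hJ, hrsJ J]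
      rw [div_le_iff₀ (hr0 0)] at hZ
      have e : (Z:ℝ) * (M:ℝ) ^ J * (rm Λ M m 0 * (1 / (M:ℝ)) ^ J) = Z * rm Λ M m 0 := by
        rw [one_div, inv_pow]
        field_simp
      rw [e]
      linarith
    have hs := rd_spec (z / (rm Λ M m J : ℂ))
    refine b0_le_of (a := Z * (M:ℝ) ^ J + 1 / 2) (hs.2.1.trans (by linarith))
      (hs.2.2.trans (by linarith)) ?_
    push_cast
    linarith
  set lab : ℕ → ℂ → ℂ := fun J z => xm Λ M m J (rd (z / (rm Λ M m J : ℂ))) with hlabdef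
  set bad : ℕ → ℂ → ℕ → Prop := fun J y j =>
    BadM N f (fun i => lab J (g i y)) (4 * Λ * rm Λ M m j)
      (famM n K Λ M (rm Λ M m j) (lab J (κ y))) G with hbad
  set cell : ℕ → Set ℂ → Prop := fun j E => E ⊆ Y ∧ ∀ y ∈ E, ∀ y' ∈ E,
    dist y y' ≤ 8 * M * rm Λ M m j with hcell
  have hpiece : ∀ (j : ℕ) (E : Set ℂ) (z : ℂ), E ⊆ Y →
      cell (j + 1) (E ∩ Metric.closedBall z (rm Λ M m j)) ∧
        E ∩ Metric.closedBall z (rm Λ M m j) ⊆ E := by
    intro j E z hE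
    refine ⟨⟨Set.inter_subset_left.trans hE, fun y hy y' hy' => ?_⟩, Set.inter_subset_left⟩
    have h1 : dist y z ≤ rm Λ M m j := hy.2
    have h2 : dist y' z ≤ rm Λ M m j := hy'.2
    have h3 := dist_triangle y z y'
    rw [dist_comm z y'] at h3
    have h4 := rm_succ (Λ := Λ) hM m j
    have h5 := hr0 j
    have h6 : 8 * M * rm Λ M m (j + 1) = 8 * rm Λ M m j := by rw [← h4]; ring
    rw [h6]
    linarith
  have hcov : ∀ᶠ J : ℕ in atTop, ∃ s : Finset (Set ℂ),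
      s.card ≤ ((20 * M + 1) ^ 2) ^ ⌈ε * J⌉₊ * (G + (2 * B0 Λ + 1) ^ 2) ^ J ∧
      Y ⊆ ⋃₀ (s : Set (Set ℂ)) ∧ ∀ c ∈ s, cell J c := by
    filter_upwards [hfew] with J hJ
    refine tree J cell (bad J) (G := G + (2 * B0 Λ + 1) ^ 2) (M := (20 * M + 1) ^ 2)
      (by have : 1 ≤ (2 * B0 Λ + 1) ^ 2 := Nat.one_le_pow _ _ (by omega)
          omega)
      (Nat.one_le_pow _ _ (by omega)) ?_ ?_ J 0 (by omega) Y ⟨le_rfl, hsmall⟩ ⌈ε * J⌉₊ ?_
    · rintro j hj E ⟨hE1, hE2⟩ ⟨y0, hy0, hb⟩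
      have hJj : rm Λ M m J ≤ rm Λ M m j := rm_le hM m hj.le
      have hj0 := hr0 j
      have hρ : 8 * M * rm Λ M m j ≤ 1 / ((m:ℝ) + 1) := by
        have h2 := hbd j
        have h3 := hrM j
        linarith
      obtain ⟨L, hL1, hL2, hL3⟩ := hmod y0 (hE1 hy0) (8 * M * rm Λ M m j) (by positivity) hρ
      choose L' hL1' hL2' hL3' using fun i => hg i y0 (hE1 hy0) (8 * M * rm Λ M m j)
        (by positivity) hρ
      obtain ⟨p, hp1, hp2⟩ := coverM (K := K) (n := n) hΛ hM hj0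
        (x := y0) (y0 := y0) (k := lab J (κ y0)) (κ0 := κ y0)
        (by rw [sub_self, norm_zero]; exact hj0.le)
        (by rw [norm_sub_rev]; exact (hlab J (κ y0)).trans hJj) L hL1 hL2
        (fun i => g i y0) (fun i => lab J (g i y0)) (fun i => (hlab J (g i y0)).trans hJj)
        L' hL1' hL2'
      have hcnt : cntM N f (fun i => lab J (g i y0)) (4 * Λ * rm Λ M m j) p < G := by
        by_contra hcon
        exact hb ⟨p, hp1, not_lt.mp hcon⟩
      obtain ⟨S0, hS0⟩ : ∃ S0 : Finset (ℤ × ℤ), S0 = bx (B0 Λ) ∪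
        p.1.filter (fun q => ∀ i, f ∈ N i (gp (lab J (g i y0)) (4 * Λ * rm Λ M m j) (p.2 i q))
          (4 * (4 * Λ * rm Λ M m j))) := ⟨_, rfl⟩
      refine ⟨S0.image (fun q => E ∩ Metric.closedBall (gp y0 (rm Λ M m j) q) (rm Λ M m j)),
        ?_, ?_, ?_⟩
      · rw [hS0]
        refine Finset.card_image_le.trans ((Finset.card_union_le _ _).trans ?_)
        rw [card_bx]
        have : (p.1.filter (fun q => ∀ i, f ∈ N i (gp (lab J (g i y0)) (4 * Λ * rm Λ M m j)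
            (p.2 i q)) (4 * (4 * Λ * rm Λ M m j)))).card =
            cntM N f (fun i => lab J (g i y0)) (4 * Λ * rm Λ M m j) p := by
          unfold cntM
          congr
        rw [this]
        omega
      · intro y hy
        have hyy : ‖y - y0‖ ≤ 8 * M * rm Λ M m j := by
          have := hE2 y hy y0 hy0
          rwa [dist_eq_norm] at this
        have e8 : 8 * M * rm Λ M m j / (64 * M) = rm Λ M m j / 8 := by
          field_simp
          norm_num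
        obtain ⟨q, hq1, hq2, hq3, hq4⟩ := hp2 y hyy (by
            obtain ⟨κ', h1, h2⟩ := hL3 y (hE1 hy) hyy
            exact ⟨κ', h1, h2.trans (le_of_eq e8)⟩)
        refine ⟨E ∩ Metric.closedBall (gp y0 (rm Λ M m j) q) (rm Λ M m j), ?_, hy, ?_⟩
        · refine Finset.mem_image.mpr ⟨q, ?_, rfl⟩
          rw [hS0]
          rcases le_or_gt (b0 q) (B0 Λ : ℤ) with h | h
          · exact Finset.mem_union_left _ (mem_bx.mpr h)
          · refine Finset.mem_union_right _ (Finset.mem_filter.mpr ⟨hq3 h.le, fun i => ?_⟩)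
            refine hY i y (hE1 hy) _ _ ?_ ?_
            · rw [dist_eq_norm]
              refine hq4 i (g i y) ?_
              exact (hL3' i y (hE1 hy) hyy).trans (le_of_eq e8)
            · have h5 := hbd j
              have h6 : Λ * rm Λ M m j ≤ Λ * rm Λ M m j * M :=
                le_mul_of_one_le_right (by positivity) hM1
              have h7 : 0 < Λ * rm Λ M m j := by positivity
              linarith
        · rw [Metric.mem_closedBall, dist_eq_norm]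
          exact hq2
      · intro c hc
        obtain ⟨q, -, rfl⟩ := Finset.mem_image.mp hc
        exact hpiece j E _ hE1
    · rintro j hj E ⟨hE1, hE2⟩ ⟨y0, hy0⟩
      have hj0 := hr0 j
      have hj0' : (rm Λ M m j : ℂ) ≠ 0 := by exact_mod_cast hj0.ne'
      refine ⟨((bx (10 * M)).image
        (fun q => E ∩ Metric.closedBall (gp y0 (rm Λ M m j) q) (rm Λ M m j))), ?_, ?_, ?_⟩
      · refine Finset.card_image_le.trans ?_
        rw [card_bx]
        exact Nat.pow_le_pow_left (by omega) 2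
      · intro y hy
        set q := rd ((y - y0) / (rm Λ M m j : ℂ)) with hq
        have hs := rd_spec ((y - y0) / (rm Λ M m j : ℂ))
        rw [← hq] at hs
        have hd : ‖y - y0‖ ≤ 8 * M * rm Λ M m j := by
          have := hE2 y hy y0 hy0
          rwa [dist_eq_norm] at this
        have hn : ‖(y - y0) / (rm Λ M m j : ℂ)‖ ≤ 8 * M := by
          rw [norm_div, Complex.norm_real, Real.norm_eq_abs, abs_of_pos hj0, div_le_iff₀ hj0]
          exact hd
        refine ⟨E ∩ Metric.closedBall (gp y0 (rm Λ M m j) q) (rm Λ M m j), ?_, hy, ?_⟩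
        · refine Finset.mem_image.mpr ⟨q, mem_bx.mpr ?_, rfl⟩
          refine b0_le_of (a := 8 * M + 1 / 2) (hs.2.1.trans (by linarith))
            (hs.2.2.trans (by linarith)) ?_
          push_cast
          linarith
        · rw [Metric.mem_closedBall, dist_eq_norm, gp_eq]
          have e : y - (y0 + (rm Λ M m j : ℂ) * qc q) =
              (rm Λ M m j : ℂ) * ((y - y0) / (rm Λ M m j : ℂ) - qc q) := by
            field_simp
            ring
          rw [e, norm_mul, Complex.norm_real, Real.norm_eq_abs, abs_of_pos hj0]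
          calc rm Λ M m j * ‖(y - y0) / (rm Λ M m j : ℂ) - qc q‖ ≤ rm Λ M m j * 1 :=
                mul_le_mul_of_nonneg_left hs.1 hj0.le
            _ = rm Λ M m j := mul_one _
      · intro c hc
        obtain ⟨q, -, rfl⟩ := Finset.mem_image.mp hc
        exact hpiece j E _ hE1
    · intro y hy
      have hbJ := hbd J
      have hrJ := hrM J
      have hrJ1 := hr1 J
      have h1 := hJ (rd (κ y / (rm Λ M m J : ℂ))) (fun i => rd (g i y / (rm Λ M m J : ℂ)))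
        (hlabb J (κ y) (hX y hy).1) (fun i => hlabb J (g i y) ((hX y hy).2 i)) (fun i => by
          have h2 := hD (xm Λ M m J (rd (g i y / (rm Λ M m J : ℂ)))) (g i y)
          have h3 := hlab J (g i y)
          have h4 := hdp i y hy
          rw [h12]
          linarith) (fun i i' hne => by
          have h2 := hsp y hy i i' hne
          have h3 := hlab J (g i y)
          have h4 := hlab J (g i' y)
          have h5 : dist (g i y) (g i' y) ≤
              dist (g i y) (xm Λ M m J (rd (g i y / (rm Λ M m J : ℂ)))) +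
              dist (xm Λ M m J (rd (g i y / (rm Λ M m J : ℂ))))
                (xm Λ M m J (rd (g i' y / (rm Λ M m J : ℂ)))) +
              dist (g i' y) (xm Λ M m J (rd (g i' y / (rm Λ M m J : ℂ)))) := by
            rw [dist_comm (g i' y) (xm Λ M m J (rd (g i' y / (rm Λ M m J : ℂ))))]
            exact dist_triangle4 _ _ _ _
          rw [dist_eq_norm (g i y) (xm Λ M m J (rd (g i y / (rm Λ M m J : ℂ)))),
            dist_eq_norm (g i' y) (xm Λ M m J (rd (g i' y / (rm Λ M m J : ℂ))))] at h5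
          rw [h12]
          linarith)
      have h9 : nbd (bad J) y 0 J = nbadM N f
          (fun i => xm Λ M m J (rd (g i y / (rm Λ M m J : ℂ))))
          (fun j => 4 * Λ * rm Λ M m j) (fun j => famM n K Λ M (rm Λ M m j)
            (xm Λ M m J (rd (κ y / (rm Λ M m J : ℂ))))) G J := by
        unfold nbd nbadM nP
        rw [← Finset.range_eq_Ico]
      rw [h9]
      exact h1.le
  refine dim_of_cover (ρ := 1 / (M:ℝ)) (by positivity) (by
      rw [div_lt_one hM0]; linarith) (a := 8 * M * rm Λ M m 0) (by have := hr0 0; positivity)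
    (by positivity)
    (fun J => ((20 * M + 1) ^ 2) ^ ⌈ε * J⌉₊ * (G + (2 * B0 Λ + 1) ^ 2) ^ J) ?_ ?_
  · have hup : ∀ J : ℕ,
        ((((20 * M + 1) ^ 2) ^ ⌈ε * J⌉₊ * (G + (2 * B0 Λ + 1) ^ 2) ^ J : ℕ) : ℝ) *
        ((1 / (M:ℝ)) ^ J) ^ (γ + 6 * ε) ≤ (M:ℝ) ^ (3:ℝ) * ((M:ℝ) ^ (-ε)) ^ J := by
      intro J
      have b1 : ((((20 * M + 1) ^ 2) ^ ⌈ε * J⌉₊ : ℕ) : ℝ) ≤ (M:ℝ) ^ (3 * (ε * J + 1)) := by
        push_cast
        have h1 := hpar.bd
        push_cast at h1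
        have h2 : ((20 * (M:ℝ) + 1) ^ 2) ^ ⌈ε * J⌉₊ ≤ ((M:ℝ) ^ (3:ℝ)) ^ ⌈ε * J⌉₊ :=
          pow_le_pow_left₀ (by positivity) h1 _
        refine h2.trans ?_
        rw [← Real.rpow_natCast, ← Real.rpow_mul hM0.le]
        apply Real.rpow_le_rpow_of_exponent_le hM1
        have h3 : (⌈ε * J⌉₊ : ℝ) < ε * J + 1 := Nat.ceil_lt_add_one (by positivity)
        linarith
      have b2 : (((G + (2 * B0 Λ + 1) ^ 2) ^ J : ℕ) : ℝ) ≤ (M:ℝ) ^ ((γ + 2 * ε) * J) := by
        have h1 := hpar.gd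
        rw [Nat.cast_pow]
        refine (pow_le_pow_left₀ (Nat.cast_nonneg _) h1 J).trans (le_of_eq ?_)
        rw [← Real.rpow_natCast, ← Real.rpow_mul hM0.le]
      have b3 : ((1 / (M:ℝ)) ^ J) ^ (γ + 6 * ε) = (M:ℝ) ^ (-(J * (γ + 6 * ε))) := by
        rw [one_div, inv_pow, Real.inv_rpow (by positivity), ← Real.rpow_natCast,
          ← Real.rpow_mul hM0.le, Real.rpow_neg hM0.le]
      rw [Nat.cast_mul, b3]
      calc ((((20 * M + 1) ^ 2) ^ ⌈ε * J⌉₊ : ℕ) : ℝ) *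
            (((G + (2 * B0 Λ + 1) ^ 2) ^ J : ℕ) : ℝ) *
            (M:ℝ) ^ (-(J * (γ + 6 * ε)))
          ≤ (M:ℝ) ^ (3 * (ε * J + 1)) * (M:ℝ) ^ ((γ + 2 * ε) * J) *
            (M:ℝ) ^ (-(J * (γ + 6 * ε))) := by
            apply mul_le_mul_of_nonneg_right _ (by positivity)
            exact mul_le_mul b1 b2 (Nat.cast_nonneg _) (by positivity)
        _ = (M:ℝ) ^ (3:ℝ) * ((M:ℝ) ^ (-ε)) ^ J := by
            rw [← Real.rpow_add hM0, ← Real.rpow_add hM0, ← Real.rpow_natCast ((M:ℝ) ^ (-ε)),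
              ← Real.rpow_mul hM0.le, ← Real.rpow_add hM0]
            congr 1
            ring
    have hlim : Tendsto (fun J : ℕ => (M:ℝ) ^ (3:ℝ) * ((M:ℝ) ^ (-ε)) ^ J) atTop (𝓝 0) := by
      have h1 : (M:ℝ) ^ (-ε) < 1 := Real.rpow_lt_one_of_one_lt_of_neg (by linarith) (by linarith)
      have := (tendsto_pow_atTop_nhds_zero_of_lt_one (by positivity) h1).const_mul ((M:ℝ) ^ (3:ℝ))
      rwa [mul_zero] at this
    exact squeeze_zero (fun J => by positivity) hup hlim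
  · filter_upwards [hcov] with J hJ
    obtain ⟨s, h1, h2, h3⟩ := hJ
    refine ⟨s, h1, h2, fun c hc x hx y hy => ?_⟩
    refine ((h3 c hc).2 x hx y hy).trans (le_of_eq ?_)
    rw [hrsJ J]
    ring

end K93M
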