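import Pool.Agent.K3h93.UG.Det

/-!
Arms around the images of many points under several maps of the lattice, at distant centres.
-/

namespace K93M

open H974 Finset H342P H984P H984N H443P H443U K93U K93G

/-! ### weights -/

theorem wt_sum {n : ℕ} (α : Fin n → ℝ) (m : ℤ) : ∏ i, wt (α i) m = wt (∑ i, α i) m := by
  unfold wt
  split_ifs with h
  · exact Finset.prod_const_one
  · have h0 : (0:ℝ) < m := by exact_mod_cast (by omega : 0 < m)
    rw [← Finset.sum_neg_distrib, Real.rpow_sum_of_pos h0]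

theorem wt_cmp {α : ℝ} (hα : 0 ≤ α) (hα2 : α ≤ 2) {m m' : ℤ} {l : ℕ} (hl : 1 ≤ l)
    (hm' : 0 ≤ m') (h : m ≤ l * m' + l) : wt α m' ≤ 4 * (l:ℝ) ^ 2 * wt α m := by
  have hl0 : (1:ℝ) ≤ l := by exact_mod_cast hl
  have h1 : wt α (2 * l * max m' 1) ≤ wt α m := by
    apply wt_anti hα
    rcases le_or_gt m' 0 with h0 | h0
    · have e : m' = 0 := by omega
      rw [e] at h ⊢
      simp only [mul_zero, zero_add] at h
      rw [max_eq_right (by norm_num)]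
      have : (0:ℤ) ≤ l := by positivity
      linarith
    · rw [max_eq_left (by omega)]
      have h2 : (l:ℤ) ≤ l * m' := by nlinarith
      linarith
  have h2 : wt α m' ≤ 4 * (l:ℝ) ^ 2 * wt α (2 * l * max m' 1) := by
    have hx : (1:ℤ) ≤ max m' 1 := le_max_right _ _
    have e0 : wt α m' = wt α (max m' 1) := by
      rcases le_or_gt m' 0 with h0 | h0
      · have e : m' = 0 := by omega
        rw [e]
        unfold wt
        simp
      · rw [max_eq_left (by omega)]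
    rw [e0]
    set x := max m' 1 with hxdef
    have hx0 : (0:ℝ) < x := by exact_mod_cast (by omega : 0 < x)
    have hpos : (0:ℤ) < 2 * l * x := by positivity
    unfold wt
    rw [if_neg (by omega), if_neg (by omega)]
    push_cast
    rw [Real.mul_rpow (by positivity) hx0.le]
    have h3 : 1 ≤ 4 * (l:ℝ) ^ 2 * (2 * (l:ℝ)) ^ (-α) := by
      rw [Real.rpow_neg (by positivity), ← div_eq_mul_inv, le_div_iff₀ (by positivity), one_mul]
      calc (2 * (l:ℝ)) ^ α ≤ (2 * (l:ℝ)) ^ (2:ℝ) :=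
            Real.rpow_le_rpow_of_exponent_le (by linarith) hα2
        _ = 4 * (l:ℝ) ^ 2 := by
            rw [show (2:ℝ) = ((2:ℕ):ℝ) by norm_num, Real.rpow_natCast]
            push_cast
            ring
    have h4 : 0 < (x:ℝ) ^ (-α) := by positivity
    nlinarith
  refine h2.trans ?_
  exact mul_le_mul_of_nonneg_left h1 (by positivity)

/-! ### maps of the lattice -/

/-- A map which does not contract distances by more than the factor `l`. -/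
structure Exp (l : ℕ) (Q : Finset (ℤ × ℤ)) (T : ℤ × ℤ → ℤ × ℤ) : Prop where
  two : ∀ u ∈ Q, ∀ v ∈ Q, H443U.sd u v ≤ l * H443U.sd (T u) (T v) + l
  one : ∀ u ∈ Q, b0 u ≤ l * b0 (T u) + l

variable {n k : ℕ}

theorem Exp.rz {l : ℕ} {Q : Finset (ℤ × ℤ)} {T : ℤ × ℤ → ℤ × ℤ} (h : Exp l Q T)
    {z : Fin k → ℤ × ℤ} (hz : ∀ i, z i ∈ Q) (i : Fin k) :
    (K93U.rz z i : ℤ) ≤ l * (K93U.rz (fun j => T (z j)) i : ℤ) + l := by
  rcases rz_cases (fun j => T (z j)) i with h1 | ⟨j, hj, h1⟩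
  · rw [h1]
    exact (rz_le_b0 z i).trans (h.one _ (hz i))
  · rw [h1]
    exact (rz_le_sd z hj).trans (h.two _ (hz i) _ (hz j))

/-! ### arms around the images of all the points -/

/-- Arms around all the images of all the points. -/
def AM (Cx : Fin n → Vtx → ℕ → ℕ → Finset Edg → Prop) (V : Fin n → Vtx) (L : ℕ)
    (T : Fin n → ℤ × ℤ → ℤ × ℤ) (z : Fin k → ℤ × ℤ) (F : Finset Edg) : Prop :=
  ∀ i, AZ (Cx i) (V i) L (fun j => T i (z j)) F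

/-- The union of the annuli. -/
noncomputable def UA (V : Fin n → Vtx) (I O : ℕ) : Finset Edg := univ.biUnion fun i => An (V i) I O

theorem An_sub_UA (V : Fin n → Vtx) (I O : ℕ) (i : Fin n) : An (V i) I O ⊆ UA V I O :=
  Finset.subset_biUnion_of_mem (fun i => An (V i) I O) (Finset.mem_univ i)

theorem AM_local {α : Fin n → ℝ} {C : ℝ} {Cx : Fin n → Vtx → ℕ → ℕ → Finset Edg → Prop}
    (hA : ∀ i, ArmSys (α i) C (Cx i)) {V : Fin n → Vtx} {L : ℕ} (hL : 1 ≤ L)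
    {T : Fin n → ℤ × ℤ → ℤ × ℤ} {z : Fin k → ℤ × ℤ} {h0 W : ℕ} (hh0 : 1 ≤ h0)
    (hz : ∀ i j, 2 * (h0 : ℤ) ≤ b0 (T i (z j)) ∧ b0 (T i (z j)) ≤ W) (F : Finset Edg) :
    AM Cx V L T z F ↔ AM Cx V L T z (F ∩ UA V (4 * L * h0) (8 * L * W)) := by
  unfold AM
  refine forall_congr' fun i => ?_
  rw [AZ_local (hA i) hL hh0 (hz i) F, AZ_local (hA i) hL hh0 (hz i)
    (F ∩ UA V (4 * L * h0) (8 * L * W)), Finset.inter_assoc,
    Finset.inter_eq_right.mpr (An_sub_UA V _ _ i)]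

theorem AM_pr {α : Fin n → ℝ} (hα : ∀ i, 0 ≤ α i) (hα2 : ∀ i, α i ≤ 2) {C : ℝ} (hC : 0 < C)
    {Cx : Fin n → Vtx → ℕ → ℕ → Finset Edg → Prop} (hA : ∀ i, ArmSys (α i) C (Cx i))
    {S : Finset Edg} {V : Fin n → Vtx} {L : ℕ} (hL : 1 ≤ L)
    {h0 W : ℕ} (hh0 : 1 ≤ h0) (hbd : ∀ i, bxe (V i) ((8 * L * W : ℕ) : ℤ) ⊆ S)
    (hsep : ∀ i i', i ≠ i' → Disjoint (bxe (V i) ((8 * L * W : ℕ) : ℤ))
      (bxe (V i') ((8 * L * W : ℕ) : ℤ)))
    {l : ℕ} (hl : 1 ≤ l) {Q : Finset (ℤ × ℤ)}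
    {T : Fin n → ℤ × ℤ → ℤ × ℤ} (hT : ∀ i, Exp l Q (T i))
    (hQ : ∀ v ∈ Q, ∀ i, 2 * (h0 : ℤ) ≤ b0 (T i v) ∧ b0 (T i v) ≤ W)
    {z : Fin k → ℤ × ℤ} (hz : ∀ j, z j ∈ Q) :
    P S (AM Cx V L T z) ≤ ((1936 * (l:ℝ) ^ 2 * cg C k) ^ n) ^ k *
      ∏ j, gz (∑ i, α i) z j := by
  classical
  have hcc := cg_one hC k
  have key := indep_le (S := S) (fun i => An (V i) (4 * L * h0) (8 * L * W))
    (fun i F => AZ (Cx i) (V i) L (fun j => T i (z j)) F)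
    (fun i => ∏ j, (484 * cg C k * wt (α i) (rz (fun j => T i (z j)) j))) univ
    (fun i _ => An_sub' (hbd i)) (fun i _ j _ hij => ?_)
    (fun i _ F => AZ_local (hA i) hL hh0 (fun j => hQ _ (hz j) i) F)
    (fun i _ => AZ_pr (hα i) (hα2 i) hC (hA i) hL hh0 (hbd i) (fun j => hQ _ (hz j) i))
  · refine le_trans (Pr_mono okh fun F _ hF => fun i _ => hF i) (key.trans ?_)
    have h1 : ∀ i : Fin n, ∏ j, (484 * cg C k * wt (α i) (rz (fun j => T i (z j)) j)) ≤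
        ∏ j, ((1936 * (l:ℝ) ^ 2 * cg C k) * wt (α i) (rz z j)) := by
      intro i
      refine Finset.prod_le_prod (fun j _ => ?_) (fun j _ => ?_)
      · have := (wt_pos (α i) (rz (fun j => T i (z j)) j)).le
        positivity
      · have h2 := wt_cmp (hα i) (hα2 i) hl (Int.natCast_nonneg _) ((hT i).rz hz j)
        calc 484 * cg C k * wt (α i) (rz (fun j => T i (z j)) j)
            ≤ 484 * cg C k * (4 * (l:ℝ) ^ 2 * wt (α i) (rz z j)) :=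
              mul_le_mul_of_nonneg_left h2 (by positivity)
          _ = _ := by ring
    calc ∏ i : Fin n, ∏ j, (484 * cg C k * wt (α i) (rz (fun j => T i (z j)) j))
        ≤ ∏ i : Fin n, ∏ j : Fin k, ((1936 * (l:ℝ) ^ 2 * cg C k) * wt (α i) (rz z j)) := by
          refine Finset.prod_le_prod (fun i _ => Finset.prod_nonneg fun j _ => ?_)
            (fun i _ => h1 i)
          have := (wt_pos (α i) (rz (fun j => T i (z j)) j)).le
          positivity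
      _ = ∏ j : Fin k, ∏ i : Fin n, ((1936 * (l:ℝ) ^ 2 * cg C k) * wt (α i) (rz z j)) :=
          Finset.prod_comm
      _ = ∏ j : Fin k, ((1936 * (l:ℝ) ^ 2 * cg C k) ^ n * wt (∑ i, α i) (rz z j)) := by
          refine Finset.prod_congr rfl fun j _ => ?_
          rw [Finset.prod_mul_distrib, Finset.prod_const, Finset.card_univ, Fintype.card_fin,
            wt_sum]
      _ = ((1936 * (l:ℝ) ^ 2 * cg C k) ^ n) ^ k * ∏ j : Fin k, wt (∑ i, α i) (rz z j) := by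
          rw [Finset.prod_mul_distrib, Finset.prod_const, Finset.card_univ, Fintype.card_fin]
      _ ≤ _ := by
          apply mul_le_mul_of_nonneg_left _ (by positivity)
          exact Finset.prod_le_prod (fun j _ => (wt_pos _ _).le) fun j _ => w_rz _ _ j
  · have h1 : An (V i) (4 * L * h0) (8 * L * W) ⊆ bxe (V i) ((8 * L * W : ℕ) : ℤ) :=
      Finset.sdiff_subset
    have h2 : An (V j) (4 * L * h0) (8 * L * W) ⊆ bxe (V j) ((8 * L * W : ℕ) : ℤ) :=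
      Finset.sdiff_subset
    exact Finset.disjoint_of_subset_left h1 (Finset.disjoint_of_subset_right h2 (hsep i j hij))

/-- Many `k`-tuples with arms around all the images. -/
def EvM (Cx : Fin n → Vtx → ℕ → ℕ → Finset Edg → Prop) (V : Fin n → Vtx) (L : ℕ)
    (Q : Finset (ℤ × ℤ)) (T : Fin n → ℤ × ℤ → ℤ × ℤ) (k G : ℕ) (F : Finset Edg) : Prop :=
  (G : ℝ) ^ k ≤ ∑ z : Fin k → Q, ind (AM Cx V L T (fun j => (z j : ℤ × ℤ)) F)

theorem EvM_local {α : Fin n → ℝ} {C : ℝ} {Cx : Fin n → Vtx → ℕ → ℕ → Finset Edg → Prop}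
    (hA : ∀ i, ArmSys (α i) C (Cx i)) {V : Fin n → Vtx} {L : ℕ} (hL : 1 ≤ L)
    {T : Fin n → ℤ × ℤ → ℤ × ℤ} {h0 W : ℕ} (hh0 : 1 ≤ h0) {Q : Finset (ℤ × ℤ)}
    (hQ : ∀ v ∈ Q, ∀ i, 2 * (h0 : ℤ) ≤ b0 (T i v) ∧ b0 (T i v) ≤ W) (k G : ℕ) (F : Finset Edg) :
    EvM Cx V L Q T k G F ↔ EvM Cx V L Q T k G (F ∩ UA V (4 * L * h0) (8 * L * W)) := by
  unfold EvM
  have : ∑ z : Fin k → Q, ind (AM Cx V L T (fun j => (z j : ℤ × ℤ)) F) =
      ∑ z : Fin k → Q, ind (AM Cx V L T (fun j => (z j : ℤ × ℤ))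
        (F ∩ UA V (4 * L * h0) (8 * L * W))) := by
    refine Finset.sum_congr rfl fun z _ => ind_congr ?_
    exact AM_local hA hL hh0 (fun i j => hQ _ (z j).2 i) F
  rw [this]

theorem EvM_pr {α : Fin n → ℝ} (hα : ∀ i, 0 ≤ α i) (hα2 : ∀ i, α i ≤ 2) {C : ℝ} (hC : 0 < C)
    {Cx : Fin n → Vtx → ℕ → ℕ → Finset Edg → Prop} (hA : ∀ i, ArmSys (α i) C (Cx i))
    {S : Finset Edg} {V : Fin n → Vtx} {L : ℕ} (hL : 1 ≤ L)
    {h0 W : ℕ} (hh0 : 1 ≤ h0) (hbd : ∀ i, bxe (V i) ((8 * L * W : ℕ) : ℤ) ⊆ S)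
    (hsep : ∀ i i', i ≠ i' → Disjoint (bxe (V i) ((8 * L * W : ℕ) : ℤ))
      (bxe (V i') ((8 * L * W : ℕ) : ℤ)))
    {l : ℕ} (hl : 1 ≤ l) {Q : Finset (ℤ × ℤ)}
    {T : Fin n → ℤ × ℤ → ℤ × ℤ} (hT : ∀ i, Exp l Q (T i))
    (hQ : ∀ v ∈ Q, ∀ i, 2 * (h0 : ℤ) ≤ b0 (T i v) ∧ b0 (T i v) ≤ W)
    {k G : ℕ} (hG : 1 ≤ G) {H : ℝ} (hH : 0 ≤ H)
    (h1 : ∑ v ∈ Q, wt (∑ i, α i) (b0 v) ≤ H)
    (h2 : ∀ u ∈ Q, ∑ v ∈ Q, wt (∑ i, α i) (H443U.sd v u) ≤ H) :
    P S (EvM Cx V L Q T k G) ≤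
      ((1936 * (l:ℝ) ^ 2 * cg C k) ^ n * ((k + 1) * H) / G) ^ k := by
  have hG0 : (0:ℝ) < G := by exact_mod_cast hG
  have hm := markov (S := S) (X := fun F => ∑ z : Fin k → Q,
      ind (AM Cx V L T (fun j => (z j : ℤ × ℤ)) F))
    (fun F => Finset.sum_nonneg fun _ _ => ind_nonneg _) (t := (G:ℝ) ^ k) (by positivity)
  refine hm.trans ?_
  rw [div_pow]
  apply div_le_div_of_nonneg_right _ (by positivity)
  rw [Ex_sum]
  have hcc := cg_one hC k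
  calc ∑ z : Fin k → Q, Ex (fun _ => (1/2:ℝ)) S
        (fun F => ind (AM Cx V L T (fun j => (z j : ℤ × ℤ)) F))
      ≤ ∑ z : Fin k → Q, ((1936 * (l:ℝ) ^ 2 * cg C k) ^ n) ^ k *
          ∏ i, gz (∑ i, α i) (fun j => (z j : ℤ × ℤ)) i := by
        refine Finset.sum_le_sum fun z _ => ?_
        exact AM_pr hα hα2 hC hA (S := S) hL hh0 hbd hsep hl hT hQ
          (z := fun j => (z j : ℤ × ℤ)) (fun j => (z j).2)
    _ = ((1936 * (l:ℝ) ^ 2 * cg C k) ^ n) ^ k *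
          ∑ z : Fin k → Q, ∏ i, gz (∑ i, α i) (fun j => (z j : ℤ × ℤ)) i := by
        rw [Finset.mul_sum]
    _ ≤ ((1936 * (l:ℝ) ^ 2 * cg C k) ^ n) ^ k * ((k + 1) * H) ^ k := by
        apply mul_le_mul_of_nonneg_left _ (by positivity)
        exact tuple_sum _ hH h1 h2 k k le_rfl
    _ = ((1936 * (l:ℝ) ^ 2 * cg C k) ^ n * ((k + 1) * H)) ^ k := by rw [← mul_pow]

open Classical in
/-- The number of points of `Q` all of whose images are hit. -/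
noncomputable def nhM (Ht : (ℤ × ℤ) → Prop) (Q : Finset (ℤ × ℤ)) : ℕ := (Q.filter Ht).card

theorem EvM_of_nh {Cx : Fin n → Vtx → ℕ → ℕ → Finset Edg → Prop} {F : Finset Edg}
    {V : Fin n → Vtx} {L : ℕ} {T : Fin n → ℤ × ℤ → ℤ × ℤ} {Ht : (ℤ × ℤ) → Prop} {W : ℕ}
    {Q : Finset (ℤ × ℤ)} (hQ : ∀ q ∈ Q, ∀ i, b0 (T i q) ≤ W)
    (hH : ∀ q ∈ Q, Ht q → ∀ i, ∀ s t : ℕ, 20 ≤ s → s + 2 ≤ t → t ≤ W →
      Cx i (vq (V i) L (T i q)) (L * s) (L * t) F)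
    {k G : ℕ} (h : G ≤ nhM Ht Q) : EvM Cx V L Q T k G F := by
  classical
  unfold EvM
  set R := Q.filter Ht with hR
  have hRc : G ≤ R.card := by
    have : nhM Ht Q = R.card := by
      unfold nhM
      rw [hR]
    rw [← this]
    exact h
  set A : Finset (Fin k → Q) := univ.filter (fun z => ∀ i, (z i : ℤ × ℤ) ∈ R) with hA
  have hcard : R.card ^ k ≤ A.card := by
    have h1 : (univ : Finset (Fin k → R)).card = R.card ^ k := by
      rw [Finset.card_univ]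
      simp
    rw [← h1]
    have hRQ : ∀ q ∈ R, q ∈ Q := fun q hq => (Finset.mem_filter.mp hq).1
    refine Finset.card_le_card_of_injOn (fun z i => (⟨z i, hRQ _ (z i).2⟩ : Q)) ?_ ?_
    · intro z _
      rw [hA]
      simp only [Finset.coe_filter, Finset.mem_univ, true_and, Set.mem_ofPred_eq]
      exact fun i => (z i).2
    · intro z _ z' _ hzz
      funext i
      have := congrFun hzz i
      simp only [Subtype.mk.injEq] at this
      exact Subtype.ext this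
  have h2 : (A.card : ℝ) ≤ ∑ z : Fin k → Q, ind (AM Cx V L T (fun j => (z j : ℤ × ℤ)) F) := by
    have h3 : (A.card : ℝ) = ∑ z ∈ A, ind (AM Cx V L T (fun j => (z j : ℤ × ℤ)) F) := by
      rw [Finset.card_eq_sum_ones]
      push_cast
      refine Finset.sum_congr rfl fun z hz => ?_
      rw [ind_of]
      rw [hA, Finset.mem_filter] at hz
      intro i j _ s t hs hst ht _
      have hzj := Finset.mem_filter.mp (hz.2 j)
      refine hH _ hzj.1 hzj.2 i s t hs hst ?_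
      have g1 := rz_le_b0 (fun j => T i (z j : ℤ × ℤ)) j
      have g2 := hQ _ hzj.1 i
      have g3 : (rz (fun j => T i (z j : ℤ × ℤ)) j : ℤ) ≤ W := g1.trans g2
      have ht' : t ≤ rz (fun j => T i (z j : ℤ × ℤ)) j := ht
      omega
    rw [h3]
    exact Finset.sum_le_sum_of_subset_of_nonneg (Finset.subset_univ _) fun _ _ _ => ind_nonneg _
  have h4 : (G:ℝ) ^ k ≤ A.card := by
    have : G ^ k ≤ A.card := (Nat.pow_le_pow_left hRc k).trans hcard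
    exact_mod_cast this
  exact h4.trans h2

/-- A configuration together with the maps. -/
abbrev Cf (n : ℕ) : Type := Finset (ℤ × ℤ) × (Fin n → ℤ × ℤ → ℤ × ℤ)

/-- A family of configurations with small sums, with maps. -/
def OkM (α : ℝ) (𝒬 : Finset (Cf n)) (l h0 W : ℕ) (H : ℝ) : Prop :=
  ∀ p ∈ 𝒬, (∀ i, Exp l p.1 (p.2 i)) ∧
    (∀ v ∈ p.1, ∀ i, 2 * (h0 : ℤ) ≤ b0 (p.2 i v) ∧ b0 (p.2 i v) ≤ W) ∧
    ∑ v ∈ p.1, wt α (b0 v) ≤ H ∧ ∀ u ∈ p.1, ∑ v ∈ p.1, wt α (H443U.sd v u) ≤ H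

theorem UA_disj {V : Fin n → Vtx} {I O I' O' : ℕ} (h : O' ≤ I) (h' : I ≤ O)
    (hsep : ∀ i i', i ≠ i' → Disjoint (bxe (V i) (O : ℤ)) (bxe (V i') (O : ℤ))) :
    Disjoint (UA V I O) (UA V I' O') := by
  classical
  rw [Finset.disjoint_left]
  intro e he he'
  unfold UA at he he'
  rw [Finset.mem_biUnion] at he he'
  obtain ⟨i, -, hi⟩ := he
  obtain ⟨j, -, hj⟩ := he'
  unfold An at hi hj
  rw [Finset.mem_sdiff] at hi hj
  by_cases hij : i = j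
  · subst hij
    refine hi.2 (bxe_mono ?_ hj.1)
    exact_mod_cast h
  · refine Finset.disjoint_left.mp (hsep i j hij) hi.1 (bxe_mono ?_ hj.1)
    exact_mod_cast h.trans h'

/-- Many scales: the probability of `m` bad scales around the centres. -/
theorem multiM {α : Fin n → ℝ} (hα : ∀ i, 0 ≤ α i) (hα2 : ∀ i, α i ≤ 2) {C : ℝ} (hC : 0 < C)
    {Cx : Fin n → Vtx → ℕ → ℕ → Finset Edg → Prop} (hA : ∀ i, ArmSys (α i) C (Cx i))
    {S : Finset Edg} {V : Fin n → Vtx}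
    {J m h0 W k G : ℕ} (L : ℕ → ℕ) (hL : ∀ j < J, 1 ≤ L j)
    (hh0 : 1 ≤ h0) (hhW : h0 ≤ W) (hbd : ∀ j < J, ∀ i, bxe (V i) ((8 * L j * W : ℕ) : ℤ) ⊆ S)
    (hsep : ∀ j < J, ∀ i i', i ≠ i' → Disjoint (bxe (V i) ((8 * L j * W : ℕ) : ℤ))
      (bxe (V i') ((8 * L j * W : ℕ) : ℤ)))
    (hch : ∀ i j : ℕ, i < j → j < J → 8 * L j * W ≤ 4 * L i * h0)
    {l : ℕ} (hl : 1 ≤ l)
    (𝒬 : ℕ → Finset (Cf n)) {q : ℕ} (hq : ∀ j < J, (𝒬 j).card ≤ q)
    (hG : 1 ≤ G) {H : ℝ} (hH : 0 ≤ H) (hQ : ∀ j < J, OkM (∑ i, α i) (𝒬 j) l h0 W H)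
    {p : ℝ} (hp : (q : ℝ) * ((1936 * (l:ℝ) ^ 2 * cg C k) ^ n * ((k + 1) * H) / G) ^ k ≤ p) :
    P S (fun F => m ≤ nP J (fun j => ∃ Q ∈ 𝒬 j, EvM Cx V (L j) Q.1 Q.2 k G F)) ≤
      2 ^ J * p ^ m := by
  classical
  have hcc := cg_one hC k
  have hc0 : 0 ≤ ((1936 * (l:ℝ) ^ 2 * cg C k) ^ n * ((k + 1) * H) / G) ^ k := by positivity
  have hp0 : 0 ≤ p := le_trans (mul_nonneg (Nat.cast_nonneg q) hc0) hp
  set A : ℕ → Finset Edg → Prop := fun j F => ∃ Q ∈ 𝒬 j, EvM Cx V (L j) Q.1 Q.2 k G F with hAdef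
  refine count_le A ?_ hp0
  intro T hT hTm
  have hTn : ∀ i ∈ T, i < J := fun i hi => Finset.mem_range.mp (hT hi)
  have hIO : ∀ j, 4 * L j * h0 ≤ 8 * L j * W := by
    intro j
    have := Nat.mul_le_mul_left (4 * L j) hhW
    nlinarith
  have key := indep_le (S := S) (fun j => UA V (4 * L j * h0) (8 * L j * W)) A
    (fun _ => p) T ?_ ?_ ?_ ?_
  · rw [Finset.prod_const, hTm] at key
    exact key
  · intro i hi
    unfold UA
    rw [Finset.biUnion_subset]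
    intro i' _
    exact An_sub' (hbd i (hTn i hi) i')
  · intro i hi j hj hne
    rcases Nat.lt_or_gt_of_ne hne with h | h
    · exact UA_disj (hch i j h (hTn j hj)) (hIO i) (hsep i (hTn i hi))
    · exact (UA_disj (hch j i h (hTn i hi)) (hIO j) (hsep j (hTn j hj))).symm
  · intro i hi F
    show (∃ Q ∈ 𝒬 i, EvM Cx V (L i) Q.1 Q.2 k G F) ↔
      ∃ Q ∈ 𝒬 i, EvM Cx V (L i) Q.1 Q.2 k G (F ∩ UA V (4 * L i * h0) (8 * L i * W))
    constructor
    · rintro ⟨Q, h2, h3⟩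
      exact ⟨Q, h2, (EvM_local hA (hL i (hTn i hi)) hh0 ((hQ i (hTn i hi) Q h2).2.1) k G F).mp h3⟩
    · rintro ⟨Q, h2, h3⟩
      exact ⟨Q, h2, (EvM_local hA (hL i (hTn i hi)) hh0 ((hQ i (hTn i hi) Q h2).2.1) k G F).mpr h3⟩
  · intro i hi
    refine le_trans (Pr_exists_le okh S (𝒬 i) (fun Q F => EvM Cx V (L i) Q.1 Q.2 k G F)) ?_
    calc ∑ Q ∈ 𝒬 i, Pr (fun _ => (1/2:ℝ)) S (fun F => EvM Cx V (L i) Q.1 Q.2 k G F)
        ≤ ∑ Q ∈ 𝒬 i, ((1936 * (l:ℝ) ^ 2 * cg C k) ^ n * ((k + 1) * H) / G) ^ k := by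
          refine Finset.sum_le_sum fun Q h2 => ?_
          obtain ⟨g0, g1, g2, g3⟩ := hQ i (hTn i hi) Q h2
          exact EvM_pr hα hα2 hC hA (hL i (hTn i hi)) hh0 (hbd i (hTn i hi)) (hsep i (hTn i hi))
            hl g0 g1 hG hH g2 g3
      _ = ((𝒬 i).card : ℝ) * ((1936 * (l:ℝ) ^ 2 * cg C k) ^ n * ((k + 1) * H) / G) ^ k := by
          rw [Finset.sum_const, nsmul_eq_mul]
      _ ≤ (q : ℝ) * ((1936 * (l:ℝ) ^ 2 * cg C k) ^ n * ((k + 1) * H) / G) ^ k := by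
          apply mul_le_mul_of_nonneg_right _ hc0
          exact_mod_cast hq i (hTn i hi)
      _ ≤ p := hp

theorem ArmSys.mono {α C C' : ℝ} {Cx : Vtx → ℕ → ℕ → Finset Edg → Prop} (h : ArmSys α C Cx)
    (hC : C ≤ C') : ArmSys α C' Cx :=
  ⟨h.loc, fun S v a b hab hS => (h.pr S v a b hab hS).trans
    (mul_le_mul_of_nonneg_right hC (by positivity))⟩

end K93M
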