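import Pool.Agent.K3h93.UM.HMesh
import Pool.Agent.K3h93.UG.HMain

/-!
The exploration path of the half-plane: uniform bounds for sets with several images in the trace,
the sides of the past and the double points.
-/

set_option autoImplicit false

namespace K93M

open H974 H12S Finset H342P H984P K93U K93G H389NS
open Pool.Agent.W92.DP Pool.Agent.W424.OD Pool.Agent.TH990.FU Pool.Agent.TH990.HP
open MeasureTheory Filter Topology Pool.Agent.W462.DPL
open H984H (Conf perc opn path place gam curve cut lawH)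
open scoped ENNReal

/-- The codimensions of the trace, of the sides of the past and of the double points. -/
noncomputable def exK : Fin 3 → ℝ := ![1 / 4, 2 / 3, 5 / 4]

/-- The types of arms. -/
def arK : Fin 3 → Vtx → ℕ → ℕ → Finset Edg → Prop := ![Cx, C3, C4]

/-- The types of special visits. -/
def nbK (η : ℝ) (l : ℕ) : Fin 3 → ℂ → ℝ → Set C(unitInterval, ℂ) :=
  ![fun z s => E2 z s, fun z s => E3 z s η (1 / ((l:ℝ) + 1)), fun z s => E4 z s (η / 2)]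

/-- The special sets. -/
def spK (η : ℝ) (f : C(unitInterval, ℂ)) : Fin 3 → Set ℂ :=
  ![Set.range f, AccT η f, DPt η f]

theorem exK_nonneg (τ : Fin 3) : 0 ≤ exK τ := by
  fin_cases τ
  · show (0:ℝ) ≤ 1 / 4
    norm_num
  · show (0:ℝ) ≤ 2 / 3
    norm_num
  · show (0:ℝ) ≤ 5 / 4
    norm_num

theorem exK_le (τ : Fin 3) : exK τ ≤ 2 := by
  fin_cases τ
  · show (1 / 4 : ℝ) ≤ 2
    norm_num
  · show (2 / 3 : ℝ) ≤ 2
    norm_num
  · show (5 / 4 : ℝ) ≤ 2
    norm_num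

theorem arK_sys : ∃ C : ℝ, 0 < C ∧ ∀ τ, ArmSys (exK τ) C (arK τ) := by
  obtain ⟨C2, hC2, hA2⟩ : ∃ C : ℝ, 0 < C ∧ H984N.AnnUp C := by
    obtain ⟨C, hC, h⟩ := H985T.st_A
    exact ⟨C, hC, fun r R hr hR c1 c2 S => h r R hr hR c1 c2 S⟩
  obtain ⟨C3', hC3, hA3⟩ := armsys3
  obtain ⟨C4', hC4, hA4⟩ := armsys4
  refine ⟨C2 + C3' + C4', by positivity, fun τ => ?_⟩
  fin_cases τ
  · exact ArmSys.mono (armsys2 hA2) (by linarith)
  · exact ArmSys.mono hA3 (by linarith)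
  · exact ArmSys.mono hA4 (by linarith)

theorem nbK_open (τ : Fin 3) (η : ℝ) (l : ℕ) (z : ℂ) (s : ℝ) : IsOpen (nbK η l τ z s) := by
  fin_cases τ
  · exact E2_open z s
  · exact E3_open z s _ _
  · exact E4_open z s _

theorem nbK_mono (τ : Fin 3) (η : ℝ) (z : ℂ) (s : ℝ) : Monotone fun l => nbK η l τ z s := by
  intro l l' hl
  fin_cases τ
  · exact le_rfl
  · rintro f ⟨t, hf, hf'⟩
    exact ⟨t, Ev3_anti (Nat.one_div_le_one_div hl) hf, hf'⟩
  · exact le_rfl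

theorem nbK_arm (τ : Fin 3) (η : ℝ) (l : ℕ) : Arm (arK τ) (nbK η l τ) η := by
  fin_cases τ
  · exact (eventually_gt_atTop 0).mono fun n hn z r ω hE v a b ρ hc => hdet2 hn hE hc
  · have hpos : (0:ℝ) < 1 / ((l:ℝ) + 1) / 8 := by positivity
    have h1 := (eventually_gt_atTop 0).and
      ((sc_tendsto tendsto_id).eventually (ge_mem_nhds hpos))
    refine h1.mono fun n hn => ?_
    intro z r ω hE v a b ρ hc
    have hn3 : sc n ≤ 1 / ((l:ℝ) + 1) / 8 := hn.2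
    exact hdet3 hn.1 (by linarith) hE hc
  · exact (eventually_gt_atTop 0).mono fun n hn z r ω hE v a b ρ hc => hdet4 hn hE hc

theorem spK_anti (τ : Fin 3) (f : C(unitInterval, ℂ)) (η η' : ℝ) (h : η ≤ η') :
    spK η' f τ ⊆ spK η f τ := by
  fin_cases τ
  · exact le_rfl
  · exact AccT_anti f η η' h
  · exact DPt_anti f η η' h

theorem spK_mem (τ : Fin 3) (f : C(unitInterval, ℂ)) (η s : ℝ) (w z : ℂ) (hη : 0 < η)
    (hw : w ∈ spK η f τ) (hz : dist w z < s) (hs : 8 * s ≤ η) : f ∈ ⋃ l : ℕ, nbK η l τ z s := by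
  fin_cases τ
  · obtain ⟨t, rfl⟩ := hw
    exact Set.mem_iUnion.mpr ⟨0, t, hz⟩
  · exact mem3 f η s w z hη hw hz hs
  · exact mem4 f η s w z hη hw hz hs

variable {φ : ℕ → ℕ} {μ : ProbabilityMeasure C(unitInterval, ℂ)} {K : Set ℂ} {s : ℝ}

theorem several_half (hφ : Tendsto φ atTop atTop) (hμ : Tendsto (fun i => lawH (φ i)) atTop (𝓝 μ))
    (hK : ∀ s', s < s' → Hom K s') :
    ∀ᵐ f : C(unitInterval, ℂ) ∂(μ : Measure C(unitInterval, ℂ)), ∀ (n : ℕ) (τ : Fin n → Fin 3)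
      (A : Set ℂ), Modelled K A → ∀ g : Fin n → ℂ → ℂ,
      (∀ i, ∀ y ∈ A, ∃ L : ℂ ≃L[ℝ] ℂ, HasFDerivWithinAt (g i) (L : ℂ →L[ℝ] ℂ) A y) →
      (∀ y ∈ A, ∀ i, g i y ∈ (⋃ l : ℕ, spK (1 / ((l:ℝ) + 1)) f (τ i)) ∧ 0 < (g i y).im) →
      (∀ y ∈ A, ∀ i i', i ≠ i' → g i y ≠ g i' y) →
      dimH A ≤ ENNReal.ofReal (s - ∑ i, exK (τ i)) := by
  rw [ae_all_iff]; intro n
  rw [ae_all_iff]; intro τ
  obtain ⟨C, hC, hA⟩ := arK_sys
  exact several_ae (n := n) (μ := (μ : Measure C(unitInterval, ℂ))) (D := fun x => x.im)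
    depth_lip (N := fun i η z r => ⋃ l : ℕ, nbK η l (τ i) z r)
    (T := fun i η f => spK η f (τ i)) (fun i f η η' h => spK_anti (τ i) f η η' h)
    (fun i f η s w z hη hw hz hs => spK_mem (τ i) f η s w z hη hw hz hs)
    (Finset.sum_nonneg fun i _ => exK_nonneg (τ i)) hC
    (fun η _ => meshHM (fun i => exK_nonneg (τ i)) (fun i => exK_le (τ i)) hC
      (fun i => hA (τ i)) (N := fun i l z r => nbK η l (τ i) z r)
      (fun i l z r => nbK_open (τ i) η l z r) (fun i z r => nbK_mono (τ i) η z r)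
      (fun i l => nbK_arm (τ i) η l) hφ hμ) hK

end K93M
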