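import Pool.Agent.K3h93.UM.Main
import Pool.Agent.K3h93.UG.HMesh

/-!
The number of bad scales around several points for the limits of the exploration path of the
half-plane.
-/

set_option autoImplicit false

namespace K93M

open H974 H12S Finset H342P H984P K93U K93G H389NS
open Pool.Agent.W92.DP Pool.Agent.W424.OD Pool.Agent.TH990.FU Pool.Agent.TH990.HP
open MeasureTheory Filter Topology Pool.Agent.W462.DPL
open H984H (Conf perc opn path place gam curve cut lawH)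
open scoped ENNReal

theorem bxe_disj {V V' : Vtx} {k : ℤ} (h : 2 * k + 1 ≤ H443U.sd V V') :
    Disjoint (H443P.bxe V k) (H443P.bxe V' k) := by
  rw [Finset.disjoint_left]
  unfold H443U.sd at h
  rw [le_max_iff, le_abs, le_abs] at h
  rintro ⟨x, y, _ | _⟩ he he'
  · unfold H443P.bxe at he he'
    rw [mem_RE_false] at he he'
    omega
  · unfold H443P.bxe at he he'
    rw [mem_RE_true] at he he'
    omega

theorem vz_near (δ : ℝ) (x : ℂ) : ‖qc (vz δ 0 x) - x / δ‖ ≤ 2 := by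
  refine (norm_le_abs _).trans ?_
  have h1 : (qc (vz δ 0 x) - x / δ).re = (⌊(x.re - 0) / δ⌋ : ℝ) - x.re / δ := by
    rw [Complex.sub_re, Complex.div_ofReal_re]
    rfl
  have h2 : (qc (vz δ 0 x) - x / δ).im = (⌊(x.im - 0) / δ⌋ : ℝ) - x.im / δ := by
    rw [Complex.sub_im, Complex.div_ofReal_im]
    rfl
  rw [h1, h2, sub_zero, sub_zero]
  have g : ∀ t : ℝ, |(⌊t⌋ : ℝ) - t| ≤ 1 := by
    intro t
    rw [abs_le]
    have a1 := Int.floor_le t
    have a2 := Int.lt_floor_add_one t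
    constructor <;> linarith
  have := g (x.re / δ)
  have := g (x.im / δ)
  linarith

theorem sep_vz {δ : ℝ} (hδ : 0 < δ) {x x' : ℂ} {a : ℝ} (h : a ≤ dist x x') :
    a / δ - 4 ≤ 2 * (H443U.sd (vz δ 0 x) (vz δ 0 x') : ℝ) := by
  have h1 := vz_near δ x
  have h2 := vz_near δ x'
  have h3 := norm_le_sd (vz δ 0 x) (vz δ 0 x')
  have h4 : ‖x / (δ:ℂ) - x' / (δ:ℂ)‖ = dist x x' / δ := by
    rw [← sub_div, norm_div, Complex.norm_real, Real.norm_eq_abs, abs_of_pos hδ, dist_eq_norm]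
  have h5 : x / (δ:ℂ) - x' / (δ:ℂ) = (qc (vz δ 0 x) - qc (vz δ 0 x')) -
      (qc (vz δ 0 x) - x / δ) + (qc (vz δ 0 x') - x' / δ) := by ring
  have h6 := norm_add_le ((qc (vz δ 0 x) - qc (vz δ 0 x')) - (qc (vz δ 0 x) - x / δ))
    (qc (vz δ 0 x') - x' / δ)
  have h7 := norm_sub_le (qc (vz δ 0 x) - qc (vz δ 0 x')) (qc (vz δ 0 x) - x / δ)
  rw [← h5, h4] at h6
  have h8 : a / δ ≤ dist x x' / δ := div_le_div_of_nonneg_right h hδ.le
  linarith

variable {n : ℕ}

/-- The mesh estimate. -/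
theorem meshHM {α : Fin n → ℝ} {C : ℝ} (hα : ∀ i, 0 ≤ α i) (hα2 : ∀ i, α i ≤ 2) (hC : 0 < C)
    {Cx : Fin n → Vtx → ℕ → ℕ → Finset Edg → Prop} (hA : ∀ i, ArmSys (α i) C (Cx i))
    {N : Fin n → ℕ → ℂ → ℝ → Set C(unitInterval, ℂ)} {η : ℝ}
    (hopen : ∀ i l z s, IsOpen (N i l z s)) (hmono : ∀ i z s, Monotone fun l => N i l z s)
    (harm : ∀ i l, Arm (Cx i) (N i l) η) {φ : ℕ → ℕ} (hφ : Tendsto φ atTop atTop)
    {μ : ProbabilityMeasure C(unitInterval, ℂ)} (hμ : Tendsto (fun i => lawH (φ i)) atTop (𝓝 μ)) :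
    MeshM (μ : Measure C(unitInterval, ℂ)) (fun i z s => ⋃ l, N i l z s) (fun x => x.im) η
      (∑ i, α i) C := by
  classical
  intro x J M h0 W k G l0 r hr hch hh0 hhW hM hD hη hsep hl0 𝒬 q hq hG H hH hQ p hp m
  have hW : 1 ≤ W := hh0.trans hhW
  have e : {f : C(unitInterval, ℂ) | m ≤ nbadM (fun i z s => ⋃ l, N i l z s) f x r 𝒬 G J} =
      ⋃ l, {f : C(unitInterval, ℂ) | m ≤ nbadM (fun i => N i l) f x r 𝒬 G J} := by
    ext f
    rw [Set.mem_iUnion]
    exact nbadM_iUnion (N := fun l i => N i l) hmono f x r 𝒬 G J m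
  have hmono2 : Monotone fun l =>
      {f : C(unitInterval, ℂ) | m ≤ nbadM (fun i => N i l) f x r 𝒬 G J} := by
    intro l l' hl f hf
    exact le_trans hf (nbadM_mono fun j _ Q _ q _ h i => hmono _ _ _ hl (h i))
  rw [e, hmono2.measure_iUnion]
  refine iSup_le fun l => ?_
  have ho := open_nbadM (N := fun i => N i l) (fun i => hopen i l) x r 𝒬 G J m
  refine (ProbabilityMeasure.le_liminf_measure_open_of_tendsto hμ ho).trans ?_
  refine liminf_le_of_frequently_le (Eventually.frequently ?_)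
  have hsc := sc_tendsto hφ
  have hall : ∀ᶠ a in atTop, ∀ j ∈ Finset.range J, sc (φ a) * (8 * W + 30) ≤ r j := by
    rw [Filter.eventually_all_finset]
    intro j hj
    have h1 : Tendsto (fun a => sc (φ a) * (8 * (W:ℝ) + 30)) atTop (𝓝 0) := by
      have := hsc.mul_const (8 * (W:ℝ) + 30)
      rwa [zero_mul] at this
    exact h1.eventually (ge_mem_nhds (hr j (Finset.mem_range.mp hj)))
  have harm2 : ∀ᶠ a in atTop, ∀ i, ∀ (z : ℂ) (s : ℝ) (ω : Conf), curve (φ a) ω ∈ N i l z s →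
      ∀ (v : Vtx) (a' b : ℕ) (ρ : ℤ), Cond (φ a) z s η v a' b ρ → Cx i v a' b (cut ω ρ) := by
    rw [Filter.eventually_all]
    intro i
    exact hφ.eventually (harm i l)
  filter_upwards [hall, harm2, tendsto_atTop.mp hφ 1] with a hl hl2 hl3
  set N' := φ a with hNdef
  have hn : 0 < N' := hl3
  have hδ := sc_pos hn
  have hrδ : ∀ j < J, sc N' * (8 * W + 30) ≤ r j := fun j hj => hl j (Finset.mem_range.mpr hj)
  set L : ℕ → ℕ := fun j => ⌊r j / sc N'⌋₊ / 4 with hLdef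
  set V : Fin n → Vtx := fun i => vz (sc N') 0 (x i) with hV
  have hWR : (1:ℝ) ≤ W := by exact_mod_cast hW
  have hfl : ∀ j < J, 8 * W + 30 ≤ ⌊r j / sc N'⌋₊ := fun j hj => by
    apply Nat.le_floor
    push_cast
    rw [le_div_iff₀ hδ]
    linarith [hrδ j hj]
  have hflu : ∀ j < J, (⌊r j / sc N'⌋₊ : ℝ) ≤ r j / sc N' := fun j hj =>
    Nat.floor_le (div_nonneg (hr j hj).le hδ.le)
  have hL1 : ∀ j < J, 1 ≤ L j := fun j hj => by
    have := hfl j hj
    show 1 ≤ ⌊r j / sc N'⌋₊ / 4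
    omega
  have hL4 : ∀ j < J, sc N' * (4 * (L j : ℝ)) ≤ r j := by
    intro j hj
    have h1 : (4:ℝ) * (L j : ℝ) ≤ ⌊r j / sc N'⌋₊ := by
      have : 4 * L j ≤ ⌊r j / sc N'⌋₊ := by
        show 4 * (⌊r j / sc N'⌋₊ / 4) ≤ _
        omega
      exact_mod_cast this
    have h2 := h1.trans (hflu j hj)
    rw [le_div_iff₀ hδ] at h2
    linarith
  -- the height
  have hV2 : ∀ j < J, ∀ i, 36 * L j * W ≤ (V i).2 := by
    intro j hj i
    have h1 := hD j hj i
    have h2 := hL4 j hj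
    have h3 : sc N' * ((36 * L j * W : ℕ) : ℝ) ≤ (x i).im := by
      push_cast
      have : sc N' * (4 * (L j : ℝ)) * (9 * W) ≤ r j * (9 * W) :=
        mul_le_mul_of_nonneg_right h2 (by positivity)
      nlinarith
    have h4 : (((36 * L j * W : ℕ) : ℤ) : ℝ) ≤ ((x i).im - 0) / sc N' := by
      rw [le_div_iff₀ hδ, Int.cast_natCast]
      linarith
    have h5 : ((36 * L j * W : ℕ) : ℤ) ≤ ⌊((x i).im - 0) / sc N'⌋ := Int.le_floor.mpr h4
    have h6 : (V i).2 = ⌊((x i).im - 0) / sc N'⌋ := rfl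
    rw [h6]
    push_cast at h5 ⊢
    exact h5
  -- separation
  have hsep2 : ∀ j < J, ∀ i i', i ≠ i' → Disjoint (H443P.bxe (V i) ((8 * L j * W : ℕ) : ℤ))
      (H443P.bxe (V i') ((8 * L j * W : ℕ) : ℤ)) := by
    intro j hj i i' hne
    apply bxe_disj
    have h1 := sep_vz hδ (hsep j hj i i' hne)
    have h2 := hL4 j hj
    have h3 : (1:ℝ) ≤ L j := by exact_mod_cast hL1 j hj
    have h4 : 40 * ((L j : ℝ) * W) ≤ 10 * r j * W / sc N' := by
      rw [le_div_iff₀ hδ]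
      have := mul_le_mul_of_nonneg_right h2 (by positivity : (0:ℝ) ≤ 10 * W)
      linarith
    have h5 : 1 ≤ (L j : ℝ) * W := by nlinarith
    have h6 : ((2 * ((8 * L j * W : ℕ) : ℤ) + 1 : ℤ) : ℝ) ≤ (H443U.sd (V i) (V i') : ℝ) := by
      push_cast
      have h7 : 10 * r j * W / sc N' - 4 ≤ 2 * (H443U.sd (V i) (V i') : ℝ) := h1
      linarith
    exact_mod_cast h6
  -- the box
  set Lm : ℕ := ∑ j ∈ Finset.range J, L j with hLm
  have hLm' : ∀ j < J, L j * W ≤ Lm * W := fun j hj => by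
    apply Nat.mul_le_mul_right
    exact Finset.single_le_sum (f := L) (fun _ _ => Nat.zero_le _) (Finset.mem_range.mpr hj)
  obtain ⟨R, hR⟩ : ∃ R : ℤ, R = ∑ i, (|(V i).1| + |(V i).2|) := ⟨_, rfl⟩
  have hRi : ∀ i, |(V i).1| + |(V i).2| ≤ R := by
    intro i
    rw [hR]
    exact Finset.single_le_sum (f := fun i => |(V i).1| + |(V i).2|)
      (fun _ _ => by positivity) (Finset.mem_univ i)
  have hR0 : 0 ≤ R := by
    rw [hR]
    exact Finset.sum_nonneg fun i _ => by positivity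
  set ρ : ℤ := N' + 20 + R + 10 * ((Lm * W : ℕ) : ℤ) with hρ
  have hsub : ∀ j < J, ∀ i, H443P.bxe (V i) ((8 * L j * W : ℕ) : ℤ) ⊆ (H984H.bx ρ).edges := by
    intro j hj i
    have hVi := hRi i
    have hV1a := neg_abs_le (V i).1
    have hV1b := le_abs_self (V i).1
    have hV2b := le_abs_self (V i).2
    have hV1c := abs_nonneg (V i).1
    have hV2c := abs_nonneg (V i).2
    have h1 := hLm' j hj
    have h2 := hV2 j hj i
    have h3 : (1:ℤ) ≤ ((L j * W : ℕ) : ℤ) := by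
      exact_mod_cast Nat.one_le_iff_ne_zero.mpr (Nat.mul_ne_zero (by have := hL1 j hj; omega)
        (by omega))
    have h4 : ((L j * W : ℕ) : ℤ) ≤ ((Lm * W : ℕ) : ℤ) := by exact_mod_cast h1
    have e1 : ((8 * L j * W : ℕ) : ℤ) = 8 * ((L j * W : ℕ) : ℤ) := by push_cast; ring
    have e2 : 36 * (L j : ℤ) * W = 36 * ((L j * W : ℕ) : ℤ) := by push_cast; ring
    rw [e2] at h2
    have h5 := blk_sub (ρ := ρ) (c := V i) (K := 8 * L j * W) (k := 8 * L j * W)
      (by rw [e1]; omega) (by rw [e1]; omega) (by rw [e1]; omega) (by rw [e1]; omega) le_rfl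
    exact h5
  refine law_le ho (ρ := ρ)
    (A := fun F => m ≤ nP J (fun j => ∃ Q ∈ 𝒬 j, EvM Cx V (L j) Q.1 Q.2 k G F))
    (fun ω hω => ?_) ?_
  · refine le_trans hω (nP_mono fun j hj hB => ?_)
    obtain ⟨Q, hQ1, hQ2⟩ := hB
    refine ⟨Q, hQ1, ?_⟩
    have hLW := hLm' j hj
    have hLj1 := hL1 j hj
    have hok := (hQ j hj Q hQ1).2.1
    refine EvM_of_nh (W := W) (Ht := fun q => ∀ i, curve N' ω ∈
      N i l (gp (x i) (r j) (Q.2 i q)) (4 * r j)) (fun q hq i => (hok q hq i).2) ?_ ?_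
    · intro q hqQ hN i s t hs hst ht
      have hVj := hV2 j hj i
      have hVi := hRi i
      have hV1a := neg_abs_le (V i).1
      have hV1b := le_abs_self (V i).1
      have hV2b := le_abs_self (V i).2
      have hV1c := abs_nonneg (V i).1
      have hV2c := abs_nonneg (V i).2
      obtain ⟨q', hq'⟩ : ∃ q', q' = Q.2 i q := ⟨_, rfl⟩
      have hqb : b0 q' ≤ W := by rw [hq']; exact (hok q hqQ i).2
      have hNi := hN i
      rw [← hq'] at hNi ⊢
      refine hl2 i _ _ ω hNi (vq (V i) (L j) q') (L j * s) (L j * t) ρ ⟨?_, ?_, ?_, ?_, ?_⟩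
      · have h1 := gp_near hn (x := x i) (hrδ j hj) hqb
        refine h1.trans ?_
        apply mul_le_mul_of_nonneg_left _ hδ.le
        exact_mod_cast Nat.mul_le_mul_left (L j) hs
      · nlinarith
      · have h1 := hη j hj
        have h2 := hL4 j hj
        have h3 : ((L j * t : ℕ) : ℝ) ≤ L j * W := by
          exact_mod_cast Nat.mul_le_mul_left (L j) ht
        have h4 : sc N' * (4 * (L j : ℝ)) * (16 * W) ≤ r j * (16 * W) :=
          mul_le_mul_of_nonneg_right h2 (by positivity)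
        have h5 : 64 * sc N' * ((L j * t : ℕ) : ℝ) ≤ 64 * sc N' * (L j * W) :=
          mul_le_mul_of_nonneg_left h3 (by positivity)
        have h6 : 0 < r j * W := mul_pos (hr j hj) (by linarith)
        nlinarith
      · have h3 : ((L j * t : ℕ) : ℤ) ≤ ((L j * W : ℕ) : ℤ) := by
          exact_mod_cast Nat.mul_le_mul_left (L j) ht
        have h4 : -(W:ℤ) ≤ q'.2 := by
          have h5 : |q'.2 - 0| ≤ b0 q' := le_max_right _ _
          rw [sub_zero] at h5
          exact (abs_le.mp (h5.trans hqb)).1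
        have h5 : (L j : ℤ) * (-(W:ℤ)) ≤ L j * q'.2 :=
          mul_le_mul_of_nonneg_left h4 (by positivity)
        show 32 * ((L j * t : ℕ) : ℤ) ≤ (V i).2 + 4 * L j * q'.2
        push_cast at h3 ⊢
        nlinarith
      · have h3 : ((L j * t : ℕ) : ℤ) ≤ ((Lm * W : ℕ) : ℤ) := by
          exact_mod_cast (Nat.mul_le_mul_left (L j) ht).trans hLW
        have hq1 : |q'.1| ≤ W := by
          have h5 : |q'.1 - 0| ≤ b0 q' := le_max_left _ _
          rw [sub_zero] at h5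
          exact h5.trans hqb
        have hq2 : |q'.2| ≤ W := by
          have h5 : |q'.2 - 0| ≤ b0 q' := le_max_right _ _
          rw [sub_zero] at h5
          exact h5.trans hqb
        have hbd : ∀ y : ℤ, |y| ≤ W → |4 * (L j : ℤ) * y| ≤ 4 * ((Lm * W : ℕ) : ℤ) := by
          intro y hy
          rw [abs_mul, abs_of_nonneg (by positivity : (0:ℤ) ≤ 4 * L j)]
          have h6 : (4 * (L j:ℤ)) * |y| ≤ 4 * L j * W :=
            mul_le_mul_of_nonneg_left hy (by positivity)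
          have h7 : ((L j * W : ℕ) : ℤ) ≤ ((Lm * W : ℕ) : ℤ) := by exact_mod_cast hLW
          push_cast at h7 ⊢
          linarith
        have g1 := abs_le.mp (hbd q'.1 hq1)
        have g2 := abs_le.mp (hbd q'.2 hq2)
        have e1 : ((5 * (L j * t) + 9 : ℕ) : ℤ) = 5 * ((L j * t : ℕ) : ℤ) + 9 := by
          push_cast; ring
        refine ⟨by omega, ?_, ?_, ?_⟩
        · show -ρ < (V i).1 + 4 * L j * q'.1 - ((5 * (L j * t) + 9 : ℕ) : ℤ)
          rw [e1]
          omega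
        · show (V i).1 + 4 * L j * q'.1 + ((5 * (L j * t) + 9 : ℕ) : ℤ) < ρ
          rw [e1]
          omega
        · show (V i).2 + 4 * L j * q'.2 + ((5 * (L j * t) + 9 : ℕ) : ℤ) < ρ
          rw [e1]
          omega
    · refine hQ2.trans (le_of_eq ?_)
      unfold cntM nhM
      congr
  · refine multiM hα hα2 hC hA (S := (H984H.bx ρ).edges) (V := V) (J := J) (m := m) (h0 := h0)
      (W := W) (k := k) (G := G) L hL1 hh0 hhW hsub hsep2 ?_ (l := l0) hl0 𝒬 hq hG hH hQ hp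
    intro i j hij hj
    show 8 * (⌊r j / sc N'⌋₊ / 4) * W ≤ 4 * (⌊r i / sc N'⌋₊ / 4) * h0
    have h2 : ⌊r j / sc N'⌋₊ * M ≤ ⌊r i / sc N'⌋₊ := by
      apply Nat.le_floor
      push_cast
      calc (⌊r j / sc N'⌋₊ : ℝ) * M ≤ r j / sc N' * M :=
            mul_le_mul_of_nonneg_right (hflu j hj) (Nat.cast_nonneg M)
        _ = r j * M / sc N' := by ring
        _ ≤ r i / sc N' := div_le_div_of_nonneg_right (hch i j hij hj) hδ.le
    have h3 : (⌊r j / sc N'⌋₊ / 4) * M ≤ ⌊r i / sc N'⌋₊ / 4 := by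
      rw [Nat.le_div_iff_mul_le (by norm_num)]
      calc ⌊r j / sc N'⌋₊ / 4 * M * 4 = (⌊r j / sc N'⌋₊ / 4 * 4) * M := by ring
        _ ≤ ⌊r j / sc N'⌋₊ * M := Nat.mul_le_mul_right _ (Nat.div_mul_le_self _ _)
        _ ≤ _ := h2
    calc 8 * (⌊r j / sc N'⌋₊ / 4) * W = 4 * ((⌊r j / sc N'⌋₊ / 4) * (2 * W)) := by ring
      _ ≤ 4 * ((⌊r j / sc N'⌋₊ / 4) * (h0 * M)) :=
          Nat.mul_le_mul_left _ (Nat.mul_le_mul_left _ hM)
      _ = 4 * (((⌊r j / sc N'⌋₊ / 4) * M) * h0) := by ring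
      _ ≤ 4 * ((⌊r i / sc N'⌋₊ / 4) * h0) :=
          Nat.mul_le_mul_left _ (Nat.mul_le_mul_right _ h3)
      _ = 4 * (⌊r i / sc N'⌋₊ / 4) * h0 := by ring

end K93M
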