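import Pool.Agent.K3h93.UM.Par

/-!
The number of bad scales for a random curve around several centres.
-/

namespace K93M

open H974 Finset H342P H984P H984N H443P H443U K93U K93G MeasureTheory Filter Topology
open scoped ENNReal

variable {n : ℕ}

open Classical in
/-- The number of points of the configuration such that there are special visits of the curve at
all the images. -/
noncomputable def cntM (N : Fin n → ℂ → ℝ → Set C(unitInterval, ℂ)) (f : C(unitInterval, ℂ))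
    (x : Fin n → ℂ) (r : ℝ) (p : Cf n) : ℕ :=
  (p.1.filter (fun q => ∀ i, f ∈ N i (gp (x i) r (p.2 i q)) (4 * r))).card

/-- Some configuration of the family has at least `G` points with special visits. -/
def BadM (N : Fin n → ℂ → ℝ → Set C(unitInterval, ℂ)) (f : C(unitInterval, ℂ)) (x : Fin n → ℂ)
    (r : ℝ) (𝒬 : Finset (Cf n)) (G : ℕ) : Prop :=
  ∃ p ∈ 𝒬, G ≤ cntM N f x r p

/-- The number of bad scales. -/
noncomputable def nbadM (N : Fin n → ℂ → ℝ → Set C(unitInterval, ℂ)) (f : C(unitInterval, ℂ))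
    (x : Fin n → ℂ) (r : ℕ → ℝ) (𝒬 : ℕ → Finset (Cf n)) (G J : ℕ) : ℕ :=
  nP J (fun j => BadM N f x (r j) (𝒬 j) G)

theorem cntM_mono {N N' : Fin n → ℂ → ℝ → Set C(unitInterval, ℂ)} {f f' : C(unitInterval, ℂ)}
    {x : Fin n → ℂ} {r : ℝ} {p : Cf n}
    (h : ∀ q ∈ p.1, (∀ i, f ∈ N i (gp (x i) r (p.2 i q)) (4 * r)) →
      ∀ i, f' ∈ N' i (gp (x i) r (p.2 i q)) (4 * r)) :
    cntM N f x r p ≤ cntM N' f' x r p := by
  classical
  unfold cntM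
  refine Finset.card_le_card fun q hq => ?_
  rw [Finset.mem_filter] at hq ⊢
  exact ⟨hq.1, h q hq.1 hq.2⟩

theorem nbadM_mono {N N' : Fin n → ℂ → ℝ → Set C(unitInterval, ℂ)} {f f' : C(unitInterval, ℂ)}
    {x : Fin n → ℂ} {r : ℕ → ℝ} {𝒬 : ℕ → Finset (Cf n)} {G J : ℕ}
    (h : ∀ j < J, ∀ p ∈ 𝒬 j, ∀ q ∈ p.1, (∀ i, f ∈ N i (gp (x i) (r j) (p.2 i q)) (4 * r j)) →
      ∀ i, f' ∈ N' i (gp (x i) (r j) (p.2 i q)) (4 * r j)) :
    nbadM N f x r 𝒬 G J ≤ nbadM N' f' x r 𝒬 G J := by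
  refine nP_mono fun j hj hB => ?_
  obtain ⟨p, hp, hB⟩ := hB
  exact ⟨p, hp, hB.trans (cntM_mono (h j hj p hp))⟩

/-- The finitely many conditions in the count of bad scales. -/
theorem nbadM_fin (J : ℕ) (𝒬 : ℕ → Finset (Cf n)) {β : Type*} {l : Filter β}
    (A B : β → ℕ → Cf n → (ℤ × ℤ) → Prop)
    (h : ∀ j < J, ∀ p ∈ 𝒬 j, ∀ q ∈ p.1, ∀ᶠ b in l, A b j p q → B b j p q) :
    ∀ᶠ b in l, ∀ j < J, ∀ p ∈ 𝒬 j, ∀ q ∈ p.1, A b j p q → B b j p q := by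
  have h1 : ∀ᶠ b in l, ∀ j ∈ Finset.range J, ∀ p ∈ 𝒬 j, ∀ q ∈ p.1, A b j p q → B b j p q := by
    rw [Filter.eventually_all_finset]
    intro j hj
    rw [Filter.eventually_all_finset]
    intro p hp
    rw [Filter.eventually_all_finset]
    intro q hq
    exact h j (Finset.mem_range.mp hj) p hp q hq
  exact h1.mono fun b hb j hj => hb j (Finset.mem_range.mpr hj)

/-- The count is lower semicontinuous. -/
theorem open_nbadM {N : Fin n → ℂ → ℝ → Set C(unitInterval, ℂ)} (hN : ∀ i z s, IsOpen (N i z s))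
    (x : Fin n → ℂ) (r : ℕ → ℝ) (𝒬 : ℕ → Finset (Cf n)) (G J m : ℕ) :
    IsOpen {f : C(unitInterval, ℂ) | m ≤ nbadM N f x r 𝒬 G J} := by
  rw [isOpen_iff_mem_nhds]
  intro f hf
  have h := nbadM_fin J 𝒬 (l := 𝓝 f)
    (fun _ j p q => ∀ i, f ∈ N i (gp (x i) (r j) (p.2 i q)) (4 * r j))
    (fun g j p q => ∀ i, g ∈ N i (gp (x i) (r j) (p.2 i q)) (4 * r j))
    (fun j _ p _ q _ => by
      by_cases hq : ∀ i, f ∈ N i (gp (x i) (r j) (p.2 i q)) (4 * r j)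
      · have h1 : ∀ᶠ g in 𝓝 f, ∀ i, g ∈ N i (gp (x i) (r j) (p.2 i q)) (4 * r j) := by
          rw [Filter.eventually_all]
          intro i
          exact (hN i _ _).mem_nhds (hq i)
        filter_upwards [h1] with g hg _
        exact hg
      · exact Filter.Eventually.of_forall fun g h => absurd h hq)
  filter_upwards [h] with g hg
  exact le_trans hf (nbadM_mono hg)

/-- The count for a union of events. -/
theorem nbadM_iUnion {N : ℕ → Fin n → ℂ → ℝ → Set C(unitInterval, ℂ)}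
    (hN : ∀ i z s, Monotone fun l => N l i z s) (f : C(unitInterval, ℂ)) (x : Fin n → ℂ)
    (r : ℕ → ℝ) (𝒬 : ℕ → Finset (Cf n)) (G J m : ℕ) :
    m ≤ nbadM (fun i z s => ⋃ l, N l i z s) f x r 𝒬 G J ↔ ∃ l, m ≤ nbadM (N l) f x r 𝒬 G J := by
  constructor
  · intro h
    have h1 := nbadM_fin J 𝒬 (l := (atTop : Filter ℕ))
      (fun _ j p q => ∀ i, f ∈ ⋃ l, N l i (gp (x i) (r j) (p.2 i q)) (4 * r j))
      (fun l j p q => ∀ i, f ∈ N l i (gp (x i) (r j) (p.2 i q)) (4 * r j))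
      (fun j _ p _ q _ => by
        by_cases hq : ∀ i, f ∈ ⋃ l, N l i (gp (x i) (r j) (p.2 i q)) (4 * r j)
        · have h2 : ∀ᶠ l in atTop, ∀ i, f ∈ N l i (gp (x i) (r j) (p.2 i q)) (4 * r j) := by
            rw [Filter.eventually_all]
            intro i
            obtain ⟨l, hl⟩ := Set.mem_iUnion.mp (hq i)
            filter_upwards [eventually_ge_atTop l] with l' hl'
            exact hN _ _ _ hl' hl
          filter_upwards [h2] with l hl _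
          exact hl
        · exact Filter.Eventually.of_forall fun g h => absurd h hq)
    obtain ⟨l, hl⟩ := h1.exists
    exact ⟨l, h.trans (nbadM_mono hl)⟩
  · rintro ⟨l, hl⟩
    exact hl.trans (nbadM_mono fun j _ p _ q _ h i => Set.mem_iUnion.mpr ⟨l, h i⟩)

/-- The bound for the number of bad scales around several points. -/
def MeshM (μ : Measure C(unitInterval, ℂ)) (N : Fin n → ℂ → ℝ → Set C(unitInterval, ℂ))
    (D : ℂ → ℝ) (η α C : ℝ) : Prop :=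
  ∀ (x : Fin n → ℂ) (J M h0 W k G l : ℕ) (r : ℕ → ℝ), (∀ j < J, 0 < r j) →
    (∀ i j, i < j → j < J → r j * M ≤ r i) → 1 ≤ h0 → h0 ≤ W → 2 * W ≤ h0 * M →
    (∀ j < J, ∀ i, 9 * r j * W ≤ D (x i)) → (∀ j < J, 36 * r j * W ≤ η) →
    (∀ j < J, ∀ i i', i ≠ i' → 10 * r j * W ≤ dist (x i) (x i')) → 1 ≤ l →
    ∀ (𝒬 : ℕ → Finset (Cf n)) (q : ℕ), (∀ j < J, (𝒬 j).card ≤ q) → 1 ≤ G →
    ∀ H : ℝ, 0 ≤ H → (∀ j < J, OkM α (𝒬 j) l h0 W H) →
    ∀ p : ℝ, (q : ℝ) * ((1936 * (l:ℝ) ^ 2 * cg C k) ^ n * ((k + 1) * H) / G) ^ k ≤ p →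
    ∀ m : ℕ, μ {f | m ≤ nbadM N f x r 𝒬 G J} ≤ ENNReal.ofReal (2 ^ J * p ^ m)

/-- Almost surely there are few bad scales around all the points of the systems. -/
theorem limit_badM {μ : Measure C(unitInterval, ℂ)} {N : Fin n → ℂ → ℝ → Set C(unitInterval, ℂ)}
    {D : ℂ → ℝ} {η α C : ℝ} (hC : 0 < C) (hmesh : MeshM μ N D η α C)
    {ι : Type*} (I : ℕ → Finset ι) (x : ι → Fin n → ℂ) (𝒬 : ι → ℕ → Finset (Cf n))
    {M h0 W k G l : ℕ} (r : ℕ → ℝ) (hr : ∀ j, 0 < r j)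
    (hch : ∀ i j : ℕ, i < j → r j * M ≤ r i)
    (hh0 : 1 ≤ h0) (hW : h0 ≤ W) (hM : 2 * W ≤ h0 * M)
    (hdp : ∀ J, ∀ i ∈ I J, ∀ j, ∀ i', 9 * r j * W ≤ D (x i i')) (hη : ∀ j, 36 * r j * W ≤ η)
    (hsep : ∀ J, ∀ i ∈ I J, ∀ j, ∀ i' i'', i' ≠ i'' → 10 * r j * W ≤ dist (x i i') (x i i''))
    (hl : 1 ≤ l)
    {q : ℕ} (hq : ∀ J, ∀ i ∈ I J, ∀ j, (𝒬 i j).card ≤ q)
    (hG : 1 ≤ G) {H : ℝ} (hH : 0 ≤ H) (hQ : ∀ J, ∀ i ∈ I J, ∀ j, OkM α (𝒬 i j) l h0 W H)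
    {p : ℝ} (hp : (q : ℝ) * ((1936 * (l:ℝ) ^ 2 * cg C k) ^ n * ((k + 1) * H) / G) ^ k ≤ p)
    (m : ℕ → ℕ) (hsum : Summable (fun J => ((I J).card : ℝ) * (2 ^ J * p ^ m J))) :
    ∀ᵐ f ∂μ, ∀ᶠ J in atTop, ∀ i ∈ I J, nbadM N f (x i) r (𝒬 i) G J < m J := by
  classical
  have hcc := cg_one hC k
  have hc0 : 0 ≤ ((1936 * (l:ℝ) ^ 2 * cg C k) ^ n * ((k + 1) * H) / G) ^ k := by positivity
  have hp0 : 0 ≤ p := le_trans (mul_nonneg (Nat.cast_nonneg q) hc0) hp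
  set B : ℕ → Set C(unitInterval, ℂ) := fun J =>
    ⋃ i ∈ I J, {f | m J ≤ nbadM N f (x i) r (𝒬 i) G J} with hB
  have hBm : ∀ J, μ (B J) ≤ ENNReal.ofReal (((I J).card : ℝ) * (2 ^ J * p ^ m J)) := by
    intro J
    calc μ (B J) ≤ ∑ i ∈ I J, μ {f | m J ≤ nbadM N f (x i) r (𝒬 i) G J} :=
          measure_biUnion_finset_le _ _
      _ ≤ ∑ i ∈ I J, ENNReal.ofReal (2 ^ J * p ^ m J) := by
          refine Finset.sum_le_sum fun i hi => ?_
          exact hmesh (x i) J M h0 W k G l r (fun j _ => hr j) (fun i j hij _ => hch i j hij) hh0 hW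
            hM (fun j _ => hdp J i hi j) (fun j _ => hη j) (fun j _ => hsep J i hi j) hl (𝒬 i) q
            (fun j _ => hq J i hi j) hG H hH (fun j _ => hQ J i hi j) p hp (m J)
      _ = ENNReal.ofReal (((I J).card : ℝ) * (2 ^ J * p ^ m J)) := by
          rw [Finset.sum_const, nsmul_eq_mul, ENNReal.ofReal_mul (Nat.cast_nonneg _),
            ENNReal.ofReal_natCast]
  have hfin : ∑' J, μ (B J) ≠ ⊤ := by
    apply ne_top_of_le_ne_top _ (ENNReal.tsum_le_tsum hBm)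
    exact hsum.tsum_ofReal_ne_top
  have h2 := ae_eventually_notMem hfin
  filter_upwards [h2] with ω hω
  filter_upwards [hω] with J hJ i hi
  by_contra hcon
  exact hJ (Set.mem_iUnion₂.mpr ⟨i, hi, not_lt.mp hcon⟩)

/-- The scales. -/
noncomputable def rm (Λ M m j : ℕ) : ℝ := rs (16 * Λ) M m j

/-- The lattice point `a` at scale `J`. -/
noncomputable def xm (Λ M m J : ℕ) (a : ℤ × ℤ) : ℂ := (rm Λ M m J : ℂ) * qc a

theorem rm_pos {Λ M : ℕ} (hΛ : 1 ≤ Λ) (hM : 1 ≤ M) (m j : ℕ) : 0 < rm Λ M m j :=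
  rs_pos (by omega) hM m j

theorem rm_le {Λ M : ℕ} (hM : 1 ≤ M) (m : ℕ) {i j : ℕ} (h : i ≤ j) :
    rm Λ M m j ≤ rm Λ M m i := rs_le hM m h

theorem rm_succ {Λ M : ℕ} (hM : 1 ≤ M) (m j : ℕ) : rm Λ M m (j + 1) * M = rm Λ M m j :=
  rs_succ hM m j

theorem rm_bd {Λ M : ℕ} (hΛ : 1 ≤ Λ) (hM : 1 ≤ M) (m j : ℕ) :
    6720 * (Λ * rm Λ M m j * M) ≤ 1 / ((m:ℝ) + 1) := by
  have h := rs_bd (Λ := 16 * Λ) (by omega) hM m j
  push_cast at h
  have e : 6720 * (Λ * rm Λ M m j * M) = 420 * (16 * (Λ:ℝ)) * rs (16 * Λ) M m j * M := by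
    unfold rm
    ring
  rw [e]
  exact h

/-- Few bad scales at all the points. -/
def FewM (D : ℂ → ℝ) (N : Fin n → ℂ → ℝ → Set C(unitInterval, ℂ)) (K : Set ℂ) (Λ M G : ℕ)
    (ε : ℝ) (m Z : ℕ) (f : C(unitInterval, ℂ)) : Prop :=
  ∀ᶠ J in atTop, ∀ (b : ℤ × ℤ) (c : Fin n → ℤ × ℤ), b0 b ≤ (Z * M ^ J : ℕ) →
    (∀ i, b0 (c i) ≤ (Z * M ^ J : ℕ)) →
    (∀ i, 1 / (2 * ((m:ℝ) + 1)) ≤ D (xm Λ M m J (c i))) →
    (∀ i i', i ≠ i' → 1 / (2 * ((m:ℝ) + 1)) ≤ dist (xm Λ M m J (c i)) (xm Λ M m J (c i'))) →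
    nbadM N f (fun i => xm Λ M m J (c i)) (fun j => 4 * Λ * rm Λ M m j)
      (fun j => famM n K Λ M (rm Λ M m j) (xm Λ M m J b)) G J < ⌈ε * J⌉₊

theorem few_aeM {μ : Measure C(unitInterval, ℂ)} {D : ℂ → ℝ}
    {N : Fin n → ℂ → ℝ → Set C(unitInterval, ℂ)} {η α C : ℝ} (hC : 0 < C)
    (hmesh : MeshM μ N D η α C) {K : Set ℂ} {γ C2 ε : ℝ}
    (hC2 : 0 < C2) (hε : 0 < ε) {Λ k M : ℕ} (hΛ : 1 ≤ Λ)
    (hfam : ∀ (r : ℝ) (k : ℂ), 0 < r → 420 * Λ * r * M ≤ 1 →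
      OkF α (fam K Λ M r k) 20 (10 * M) (C2 * (M : ℝ) ^ γ))
    (hpar : ParM n ((1936 * (((16 * Λ ^ 2 : ℕ) : ℝ)) ^ 2 * cg C k) ^ n) C2 γ ε Λ k M)
    (m Z : ℕ) (hη : 1 / ((m:ℝ) + 1) ≤ η) :
    ∀ᵐ f ∂μ, FewM D N K Λ M ⌈(M:ℝ) ^ (γ + ε)⌉₊ ε m Z f := by
  classical
  have hM2 := hpar.two
  have hM : 1 ≤ M := by omega
  have hM0 : (0:ℝ) < M := by exact_mod_cast (by omega : 0 < M)
  have hM2' : (2:ℝ) ≤ M := by exact_mod_cast hM2
  have hN0 : (0:ℝ) ≤ m := Nat.cast_nonneg m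
  have hΛ' : (1:ℝ) ≤ Λ := by exact_mod_cast hΛ
  set I : ℕ → Finset (ℕ × ((ℤ × ℤ) × (Fin n → ℤ × ℤ))) := fun J =>
    ((bx (Z * M ^ J) ×ˢ Fintype.piFinset (fun _ : Fin n => bx (Z * M ^ J))).image
      (fun p => (J, p))).filter
      (fun i => (∀ i', 1 / (2 * ((m:ℝ) + 1)) ≤ D (xm Λ M m i.1 (i.2.2 i'))) ∧
        ∀ i' i'', i' ≠ i'' →
          1 / (2 * ((m:ℝ) + 1)) ≤ dist (xm Λ M m i.1 (i.2.2 i')) (xm Λ M m i.1 (i.2.2 i''))) with hI
  have hcard : ∀ J, ((I J).card : ℝ) ≤ (2 * (Z:ℝ) + 1) ^ (2 * n + 2) *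
      ((M:ℝ) ^ (2 * n + 2)) ^ J := by
    intro J
    have h1 : (I J).card ≤ ((2 * (Z * M ^ J) + 1) ^ 2) * ((2 * (Z * M ^ J) + 1) ^ 2) ^ n := by
      rw [hI]
      refine (Finset.card_filter_le _ _).trans (Finset.card_image_le.trans ?_)
      rw [Finset.card_product, Fintype.card_piFinset, Finset.prod_const, Finset.card_univ,
        Fintype.card_fin, card_bx]
    have h2 : 2 * (Z * M ^ J) + 1 ≤ (2 * Z + 1) * M ^ J := by
      have : 1 ≤ M ^ J := Nat.one_le_pow _ _ hM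
      nlinarith
    have h3 : (I J).card ≤ (2 * Z + 1) ^ (2 * n + 2) * (M ^ (2 * n + 2)) ^ J := by
      refine h1.trans ?_
      calc ((2 * (Z * M ^ J) + 1) ^ 2) * ((2 * (Z * M ^ J) + 1) ^ 2) ^ n
          = (2 * (Z * M ^ J) + 1) ^ (2 * n + 2) := by
            rw [← pow_mul, ← pow_add]; congr 1; ring
        _ ≤ ((2 * Z + 1) * M ^ J) ^ (2 * n + 2) := Nat.pow_le_pow_left h2 _
        _ = (2 * Z + 1) ^ (2 * n + 2) * (M ^ (2 * n + 2)) ^ J := by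
            rw [mul_pow, ← pow_mul, ← pow_mul, Nat.mul_comm J]
    exact_mod_cast h3
  set p : ℝ := (M:ℝ) ^ (-((2 * n + 6) / ε)) with hp
  have hp0 : 0 < p := by positivity
  have hpm : ∀ J : ℕ, p ^ ⌈ε * J⌉₊ ≤ ((M:ℝ)⁻¹ ^ (2 * n + 6)) ^ J := by
    intro J
    have h1 : ε * J ≤ ⌈ε * J⌉₊ := Nat.le_ceil _
    have h2 : p ^ ⌈ε * J⌉₊ = (M:ℝ) ^ (-((2 * n + 6) / ε) * ⌈ε * J⌉₊) := by
      rw [hp, ← Real.rpow_natCast, ← Real.rpow_mul hM0.le]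
    have h3 : ((M:ℝ)⁻¹ ^ (2 * n + 6)) ^ J = (M:ℝ) ^ (-((2 * n + 6) * (J:ℝ))) := by
      rw [← pow_mul, inv_pow, Real.rpow_neg hM0.le, ← Real.rpow_natCast]
      push_cast
      rfl
    rw [h2, h3]
    apply Real.rpow_le_rpow_of_exponent_le (by linarith)
    have h4 : (2 * (n:ℝ) + 6) / ε * (ε * J) ≤ (2 * n + 6) / ε * ⌈ε * J⌉₊ :=
      mul_le_mul_of_nonneg_left h1 (by positivity)
    have h5 : (2 * (n:ℝ) + 6) / ε * (ε * J) = (2 * n + 6) * J := by field_simp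
    linarith
  have hsum : Summable (fun J => ((I J).card : ℝ) * (2 ^ J * p ^ ⌈ε * J⌉₊)) := by
    have hq : (M:ℝ) ^ (2 * n + 2) * 2 * (M:ℝ)⁻¹ ^ (2 * n + 6) ≤ 1 / 2 := by
      have e : (M:ℝ) ^ (2 * n + 2) * 2 * (M:ℝ)⁻¹ ^ (2 * n + 6) = 2 / (M:ℝ) ^ 4 := by
        rw [show 2 * n + 6 = (2 * n + 2) + 4 by ring, pow_add (M:ℝ)⁻¹, inv_pow, inv_pow]
        field_simp
      rw [e, div_le_div_iff₀ (by positivity) (by norm_num)]
      have h2 : (2:ℝ) ^ 4 ≤ (M:ℝ) ^ 4 := pow_le_pow_left₀ (by norm_num) hM2' 4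
      linarith
    have hg : Summable (fun J : ℕ => (2 * (Z:ℝ) + 1) ^ (2 * n + 2) *
        ((M:ℝ) ^ (2 * n + 2) * 2 * (M:ℝ)⁻¹ ^ (2 * n + 6)) ^ J) :=
      (summable_geometric_of_lt_one (by positivity) (by linarith)).mul_left _
    refine Summable.of_nonneg_of_le (fun J => by positivity) (fun J => ?_) hg
    calc ((I J).card : ℝ) * (2 ^ J * p ^ ⌈ε * J⌉₊)
        ≤ ((2 * (Z:ℝ) + 1) ^ (2 * n + 2) * ((M:ℝ) ^ (2 * n + 2)) ^ J) *
          (2 ^ J * ((M:ℝ)⁻¹ ^ (2 * n + 6)) ^ J) := by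
          apply mul_le_mul (hcard J) _ (by positivity) (by positivity)
          exact mul_le_mul_of_nonneg_left (hpm J) (by positivity)
      _ = (2 * (Z:ℝ) + 1) ^ (2 * n + 2) *
          ((M:ℝ) ^ (2 * n + 2) * 2 * (M:ℝ)⁻¹ ^ (2 * n + 6)) ^ J := by
          rw [mul_pow, mul_pow]
          ring
  have hγε : 0 < (M:ℝ) ^ (γ + ε) := by positivity
  have hG1 : 1 ≤ ⌈(M:ℝ) ^ (γ + ε)⌉₊ := Nat.one_le_iff_ne_zero.mpr (by
    have := Nat.ceil_pos.mpr hγε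
    omega)
  have hr0 := fun j => rm_pos hΛ hM m j
  have h12 : (1:ℝ) / (2 * (m + 1)) = 1 / 2 * (1 / (m + 1)) := by field_simp
  have h1m : (0:ℝ) < 1 / (m + 1) := by positivity
  have key := limit_badM hC hmesh I (fun i i' => xm Λ M m i.1 (i.2.2 i'))
    (fun i j => famM n K Λ M (rm Λ M m j) (xm Λ M m i.1 i.2.1)) (M := M) (h0 := 20)
    (W := 10 * M) (k := k) (l := 16 * Λ ^ 2)
    (G := ⌈(M:ℝ) ^ (γ + ε)⌉₊) (fun j => 4 * Λ * rm Λ M m j) (fun j => by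
      have := hr0 j
      positivity)
    (fun i j hij => by
      have h1 := rm_le (Λ := Λ) hM m (show i + 1 ≤ j from hij)
      have h2 : rm Λ M m j * M ≤ rm Λ M m i := by
        calc rm Λ M m j * M ≤ rm Λ M m (i + 1) * M := mul_le_mul_of_nonneg_right h1 hM0.le
          _ = rm Λ M m i := rm_succ hM m i
      calc 4 * Λ * rm Λ M m j * M = 4 * Λ * (rm Λ M m j * M) := by ring
        _ ≤ 4 * Λ * rm Λ M m i := mul_le_mul_of_nonneg_left h2 (by positivity))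
    (by norm_num) (by omega) (by omega)
    (fun J i hi j i' => by
      rw [hI] at hi
      refine le_trans ?_ ((Finset.mem_filter.mp hi).2.1 i')
      have h2 := rm_bd hΛ hM m j
      rw [h12]
      push_cast
      nlinarith)
    (fun j => by
      have h2 := rm_bd hΛ hM m j
      push_cast
      nlinarith)
    (fun J i hi j i' i'' hne => by
      rw [hI] at hi
      refine le_trans ?_ ((Finset.mem_filter.mp hi).2.2 i' i'' hne)
      have h2 := rm_bd hΛ hM m j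
      rw [h12]
      push_cast
      nlinarith)
    (Nat.one_le_iff_ne_zero.mpr (by positivity))
    (q := qN n Λ M) (fun J i _ j => famM_card n K hΛ hM _ _) hG1
    (H := C2 * (M : ℝ) ^ γ) (by positivity)
    (fun J i _ j => famM_ok hΛ (hfam _ _ (hr0 j) (by
      have h2 := rm_bd hΛ hM m j
      have h3 : 1 / ((m:ℝ) + 1) ≤ 1 := by
        rw [div_le_one (by positivity)]
        linarith
      have h4 : 0 < Λ * rm Λ M m j * M := by
        have := hr0 j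
        positivity
      linarith)))
    (p := p) hpar.pr (fun J => ⌈ε * J⌉₊) hsum
  filter_upwards [key] with ω hω
  unfold FewM
  filter_upwards [hω] with J hJ b c hb hc hd hs
  have hmem : (J, (b, c)) ∈ I J :=
    Finset.mem_filter.mpr ⟨Finset.mem_image.mpr ⟨(b, c),
      Finset.mem_product.mpr ⟨mem_bx.mpr hb, Fintype.mem_piFinset.mpr fun i => mem_bx.mpr (hc i)⟩,
      rfl⟩, hd, hs⟩
  exact hJ (J, (b, c)) hmem

end K93M
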