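import Pool.Agent.K3h93.UM.Det

/-!
The uniform bound for sets with several images in the special sets of a random curve.
-/

namespace K93M

open H974 Finset H342P H984P H984N H443P H443U K93U K93G MeasureTheory Filter Topology
open scoped ENNReal

variable {n : ℕ}

/-- The points of `A` where the map is close to linear at all scales at most `1 / (N + 1)`. -/
def GoodG (A : Set ℂ) (Λ M N : ℕ) (g : ℂ → ℂ) : Set ℂ :=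
  {x | x ∈ A ∧ ‖g x‖ ≤ N ∧ ∀ ρ : ℝ, 0 < ρ → ρ ≤ 1 / ((N:ℝ) + 1) → ∃ L : ℂ →L[ℝ] ℂ,
    (∀ z, ‖L z‖ ≤ Λ * ‖z‖) ∧ (∀ z, ‖z‖ ≤ Λ * ‖L z‖) ∧
    ∀ y' ∈ A, ‖y' - x‖ ≤ ρ → ‖g y' - g x - L (y' - x)‖ ≤ ρ / (64 * M)}

theorem Good_mono {K A : Set ℂ} {Λ M N N' : ℕ} {κ : ℂ → ℂ} (h : N ≤ N') :
    Good K A Λ M N κ ⊆ Good K A Λ M N' κ := by
  rintro x ⟨h1, h2, h3⟩
  have hN : (N:ℝ) ≤ N' := by exact_mod_cast h
  exact ⟨h1, h2.trans hN, fun ρ h4 h5 => h3 ρ h4 (h5.trans (Nat.one_div_le_one_div h))⟩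

theorem GoodG_mono {A : Set ℂ} {Λ M N N' : ℕ} {g : ℂ → ℂ} (h : N ≤ N') :
    GoodG A Λ M N g ⊆ GoodG A Λ M N' g := by
  rintro x ⟨h1, h2, h3⟩
  have hN : (N:ℝ) ≤ N' := by exact_mod_cast h
  exact ⟨h1, h2.trans hN, fun ρ h4 h5 => h3 ρ h4 (h5.trans (Nat.one_div_le_one_div h))⟩

/-- A modelled set with differentiable maps is a union of good sets. -/
theorem modelled_goodM {K A : Set ℂ} (h : Modelled K A) {g : Fin n → ℂ → ℂ}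
    (hg : ∀ i, ∀ x ∈ A, ∃ L : ℂ ≃L[ℝ] ℂ, HasFDerivWithinAt (g i) (L : ℂ →L[ℝ] ℂ) A x)
    (M : ℕ → ℕ) (hM : ∀ Λ, 1 ≤ Λ → 1 ≤ M Λ) :
    ∃ κ : ℂ → ℂ, ∀ x ∈ A, ∃ Λ N : ℕ, 1 ≤ Λ ∧ x ∈ Good K A Λ (M Λ) N κ ∧
      ∀ i, x ∈ GoodG A Λ (M Λ) N (g i) := by
  classical
  have hch : ∀ x : ℂ, ∃ κ : ℂ, x ∈ A → ∃ Λ : ℝ, ∀ ε : ℝ, 0 < ε → ∃ ρ : ℝ, 0 < ρ ∧ ∀ r : ℝ,
      0 < r → r < ρ → ∃ L : ℂ →L[ℝ] ℂ, (∀ z, ‖L z‖ ≤ Λ * ‖z‖) ∧ (∀ z, ‖z‖ ≤ Λ * ‖L z‖) ∧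
      ∀ y ∈ A, ‖y - x‖ ≤ r → ∃ κ' ∈ K, ‖y - x - L (κ' - κ)‖ ≤ ε * r := by
    intro x
    by_cases hx : x ∈ A
    · obtain ⟨κ, h1⟩ := h x hx
      exact ⟨κ, fun _ => h1⟩
    · exact ⟨0, fun h => absurd h hx⟩
  choose κ hκ using hch
  refine ⟨κ, fun x hx => ?_⟩
  obtain ⟨Λ0, h0⟩ := hκ x hx
  choose L hL using fun i => hg i x hx
  obtain ⟨B, hB⟩ := Finite.exists_le (fun i : Fin n =>
    ⌈max ‖(L i : ℂ →L[ℝ] ℂ)‖ ‖((L i).symm : ℂ →L[ℝ] ℂ)‖⌉₊)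
  obtain ⟨Λ, hΛ⟩ := exists_nat_ge (max (max Λ0 1) B)
  have hΛ1 : 1 ≤ Λ := by
    have : (1:ℝ) ≤ Λ := ((le_max_right _ _).trans (le_max_left _ _)).trans hΛ
    exact_mod_cast this
  have hΛ0 : Λ0 ≤ Λ := ((le_max_left _ _).trans (le_max_left _ _)).trans hΛ
  have hΛB : (B:ℝ) ≤ Λ := (le_max_right _ _).trans hΛ
  have hL1 : ∀ i, ‖(L i : ℂ →L[ℝ] ℂ)‖ ≤ Λ := by
    intro i
    have h1 : max ‖(L i : ℂ →L[ℝ] ℂ)‖ ‖((L i).symm : ℂ →L[ℝ] ℂ)‖ ≤ B := by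
      refine (Nat.le_ceil _).trans ?_
      exact_mod_cast hB i
    exact (le_max_left _ _).trans (h1.trans hΛB)
  have hL2 : ∀ i, ‖((L i).symm : ℂ →L[ℝ] ℂ)‖ ≤ Λ := by
    intro i
    have h1 : max ‖(L i : ℂ →L[ℝ] ℂ)‖ ‖((L i).symm : ℂ →L[ℝ] ℂ)‖ ≤ B := by
      refine (Nat.le_ceil _).trans ?_
      exact_mod_cast hB i
    exact (le_max_right _ _).trans (h1.trans hΛB)
  have hM0 : (0:ℝ) < M Λ := by exact_mod_cast hM Λ hΛ1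
  obtain ⟨ρ, hρ, h1⟩ := h0 (1 / (64 * M Λ)) (by positivity)
  obtain ⟨n1, hn1⟩ := exists_nat_one_div_lt hρ
  have hgi : ∀ i, ∃ m : ℕ, ‖g i x‖ ≤ m ∧ ∀ y' ∈ A, ‖y' - x‖ < 1 / ((m:ℝ) + 1) →
      ‖g i y' - g i x - L i (y' - x)‖ ≤ 1 / (64 * M Λ) * ‖y' - x‖ := by
    intro i
    have hd := (hasFDerivWithinAt_iff_isLittleO.mp (hL i)).def
      (c := 1 / (64 * M Λ)) (by positivity)
    rw [Metric.nhdsWithin_basis_ball.eventually_iff] at hd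
    obtain ⟨ρ', hρ', hd⟩ := hd
    obtain ⟨n2, hn2⟩ := exists_nat_one_div_lt hρ'
    obtain ⟨n3, hn3⟩ := exists_nat_ge ‖g i x‖
    refine ⟨max n2 n3, hn3.trans (by exact_mod_cast le_max_right _ _), fun y' hy' hlt => ?_⟩
    have h2 : y' ∈ Metric.ball x ρ' ∩ A := by
      refine ⟨?_, hy'⟩
      rw [Metric.mem_ball, dist_eq_norm]
      exact hlt.trans (lt_of_le_of_lt (Nat.one_div_le_one_div (le_max_left _ _)) hn2)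
    exact hd h2
  choose m hm1 hm2 using hgi
  obtain ⟨B', hB'⟩ := Finite.exists_le m
  obtain ⟨N, hN⟩ := exists_nat_ge (max (max (n1:ℝ) ‖κ x‖) (B' + 1))
  have hN1 : (n1:ℝ) ≤ N := ((le_max_left _ _).trans (le_max_left _ _)).trans hN
  have hN2 : ‖κ x‖ ≤ N := ((le_max_right _ _).trans (le_max_left _ _)).trans hN
  have hN3 : (B':ℝ) + 1 ≤ N := (le_max_right _ _).trans hN
  refine ⟨Λ, N, hΛ1, ⟨hx, hN2, fun r hr hr' => ?_⟩, fun i => ⟨hx, ?_, fun r hr hr' => ?_⟩⟩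
  · obtain ⟨L, h2, h3, h4⟩ := h1 r hr (by
      refine lt_of_le_of_lt (hr'.trans ?_) hn1
      apply one_div_le_one_div_of_le (by positivity)
      linarith)
    refine ⟨L, fun z => (h2 z).trans (mul_le_mul_of_nonneg_right hΛ0 (norm_nonneg _)),
      fun z => (h3 z).trans (mul_le_mul_of_nonneg_right hΛ0 (norm_nonneg _)), fun y hy h => ?_⟩
    obtain ⟨κ', h5, h6⟩ := h4 y hy h
    refine ⟨κ', h5, h6.trans (le_of_eq ?_)⟩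
    field_simp
  · have h2 : (m i : ℝ) ≤ B' := by exact_mod_cast hB' i
    exact (hm1 i).trans (by linarith)
  · have h2 : (m i : ℝ) ≤ B' := by exact_mod_cast hB' i
    refine ⟨(L i : ℂ →L[ℝ] ℂ), fun z => ?_, fun z => ?_, fun y' hy' hy => ?_⟩
    · exact ((L i : ℂ →L[ℝ] ℂ).le_opNorm z).trans
        (mul_le_mul_of_nonneg_right (hL1 i) (norm_nonneg _))
    · have h3 := ((L i).symm : ℂ →L[ℝ] ℂ).le_opNorm ((L i : ℂ →L[ℝ] ℂ) z)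
      have h4 : ((L i).symm : ℂ →L[ℝ] ℂ) ((L i : ℂ →L[ℝ] ℂ) z) = z := (L i).symm_apply_apply z
      rw [h4] at h3
      exact h3.trans (mul_le_mul_of_nonneg_right (hL2 i) (norm_nonneg _))
    · have h3 : ‖y' - x‖ < 1 / ((m i:ℝ) + 1) := by
        refine lt_of_le_of_lt (hy.trans hr') ?_
        apply one_div_lt_one_div_of_lt (by positivity)
        linarith
      refine (hm2 i y' hy' h3).trans ?_
      calc 1 / (64 * (M Λ : ℝ)) * ‖y' - x‖ ≤ 1 / (64 * M Λ) * r :=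
            mul_le_mul_of_nonneg_left hy (by positivity)
        _ = r / (64 * M Λ) := by ring

/-- The deterministic part. -/
theorem det_allM {D : ℂ → ℝ} (hD : ∀ x y : ℂ, D y ≤ D x + ‖y - x‖)
    {N : Fin n → ℝ → ℂ → ℝ → Set C(unitInterval, ℂ)}
    {T : Fin n → ℝ → C(unitInterval, ℂ) → Set ℂ}
    (hTa : ∀ (i : Fin n) (f : C(unitInterval, ℂ)) (η η' : ℝ), η ≤ η' → T i η' f ⊆ T i η f)
    (hT : ∀ (i : Fin n) (f : C(unitInterval, ℂ)) (η s : ℝ) (w z : ℂ), 0 < η → w ∈ T i η f →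
      dist w z < s → 8 * s ≤ η → f ∈ N i η z s)
    {f : C(unitInterval, ℂ)} {K : Set ℂ} {c : ℕ → ℕ → ℝ} {γ ε : ℝ}
    (hγ : 0 < γ) (hε : 0 < ε) (C2 : ℕ → ℝ) (k M : ℕ → ℕ)
    (hpar : ∀ Λ, 1 ≤ Λ → ParM n (c Λ (k Λ)) (C2 Λ) γ ε Λ (k Λ) (M Λ))
    (hfew : ∀ Λ m Z : ℕ, 1 ≤ Λ → FewM D (fun i => N i (1 / ((m:ℝ) + 1))) K Λ (M Λ)
      ⌈(M Λ:ℝ) ^ (γ + ε)⌉₊ ε m Z f) {A : Set ℂ} {g : Fin n → ℂ → ℂ}
    (hA : ∃ κ : ℂ → ℂ, ∀ x ∈ A, ∃ Λ N : ℕ, 1 ≤ Λ ∧ x ∈ Good K A Λ (M Λ) N κ ∧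
      ∀ i, x ∈ GoodG A Λ (M Λ) N (g i))
    (h1 : ∀ y ∈ A, ∀ i, g i y ∈ (⋃ l : ℕ, T i (1 / ((l:ℝ) + 1)) f) ∧ 0 < D (g i y))
    (h2 : ∀ y ∈ A, ∀ i i', i ≠ i' → g i y ≠ g i' y) :
    dimH A ≤ ENNReal.ofReal (γ + 6 * ε) := by
  classical
  obtain ⟨κ, hκ⟩ := hA
  set Y : ℕ → ℕ → (ℤ × ℤ) → Set ℂ := fun Λ m q =>
    {y | y ∈ Good K A Λ (M Λ) m κ ∧ (∀ i, y ∈ GoodG A Λ (M Λ) m (g i)) ∧
      (∀ i, g i y ∈ T i (1 / ((m:ℝ) + 1)) f ∧ 1 / ((m:ℝ) + 1) ≤ D (g i y)) ∧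
      (∀ i i', i ≠ i' → 1 / ((m:ℝ) + 1) ≤ dist (g i y) (g i' y)) ∧
      ‖y - (rm Λ (M Λ) m 0 : ℂ) * qc q‖ ≤ rm Λ (M Λ) m 0} with hY
  have hsub : A ⊆ ⋃ Λ : ℕ, ⋃ m : ℕ, ⋃ q : ℤ × ℤ, Y (Λ + 1) m q := by
    intro y hy
    obtain ⟨Λ, N0, hΛ, hG, hGg⟩ := hκ y hy
    have ha : ∀ i, ∃ l : ℕ, g i y ∈ T i (1 / ((l:ℝ) + 1)) f ∧ 1 / ((l:ℝ) + 1) ≤ D (g i y) := by
      intro i
      obtain ⟨h3, h4⟩ := h1 y hy i
      obtain ⟨l1, hl1⟩ := Set.mem_iUnion.mp h3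
      obtain ⟨l2, hl2⟩ := exists_nat_one_div_lt h4
      refine ⟨max l1 l2, hTa i f _ _ (Nat.one_div_le_one_div (le_max_left _ _)) hl1, ?_⟩
      exact (Nat.one_div_le_one_div (le_max_right _ _)).trans hl2.le
    choose l hl1 hl2 using ha
    have hb : ∀ p : Fin n × Fin n, ∃ l : ℕ, p.1 ≠ p.2 →
        1 / ((l:ℝ) + 1) ≤ dist (g p.1 y) (g p.2 y) := by
      intro p
      by_cases hp : p.1 = p.2
      · exact ⟨0, fun h => absurd hp h⟩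
      · obtain ⟨l2, hl2⟩ := exists_nat_one_div_lt (dist_pos.mpr (h2 y hy p.1 p.2 hp))
        exact ⟨l2, fun _ => hl2.le⟩
    choose l' hl' using hb
    obtain ⟨B1, hB1⟩ := Finite.exists_le l
    obtain ⟨B2, hB2⟩ := Finite.exists_le l'
    obtain ⟨m, hm1, hm2, hm3⟩ : ∃ m : ℕ, N0 ≤ m ∧ B1 ≤ m ∧ B2 ≤ m :=
      ⟨max N0 (max B1 B2), le_max_left _ _, (le_max_left _ _).trans (le_max_right _ _),
        (le_max_right _ _).trans (le_max_right _ _)⟩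
    have hM : 1 ≤ M Λ := by have := (hpar Λ hΛ).two; omega
    have hr := rm_pos hΛ hM m 0
    have hr' : (rm Λ (M Λ) m 0 : ℂ) ≠ 0 := by exact_mod_cast hr.ne'
    obtain ⟨q, hq, -, -⟩ := exists_round (y / (rm Λ (M Λ) m 0 : ℂ))
    simp only [Set.mem_iUnion]
    refine ⟨Λ - 1, m, q, ?_⟩
    have e : Λ - 1 + 1 = Λ := by omega
    rw [e]
    refine ⟨Good_mono hm1 hG, fun i => GoodG_mono hm1 (hGg i), fun i => ⟨?_, ?_⟩,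
      fun i i' hne => ?_, ?_⟩
    · exact hTa i f _ _ (Nat.one_div_le_one_div ((hB1 i).trans hm2)) (hl1 i)
    · exact (Nat.one_div_le_one_div ((hB1 i).trans hm2)).trans (hl2 i)
    · exact (Nat.one_div_le_one_div ((hB2 (i, i')).trans hm3)).trans (hl' (i, i') hne)
    · have e2 : y - (rm Λ (M Λ) m 0 : ℂ) * qc q = (rm Λ (M Λ) m 0 : ℂ) *
          (y / (rm Λ (M Λ) m 0 : ℂ) - qc q) := by field_simp
      rw [e2, norm_mul, Complex.norm_real, Real.norm_eq_abs, abs_of_pos hr]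
      calc rm Λ (M Λ) m 0 * ‖y / (rm Λ (M Λ) m 0 : ℂ) - qc q‖
          ≤ rm Λ (M Λ) m 0 * 1 := mul_le_mul_of_nonneg_left hq hr.le
        _ = _ := mul_one _
  refine (dimH_mono hsub).trans ?_
  rw [dimH_iUnion]
  refine iSup_le fun Λ => ?_
  rw [dimH_iUnion]
  refine iSup_le fun m => ?_
  rw [dimH_iUnion]
  refine iSup_le fun q => ?_
  have hΛ : 1 ≤ Λ + 1 := by omega
  have hM2 := (hpar (Λ + 1) hΛ).two
  have hM : 1 ≤ M (Λ + 1) := by omega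
  have hM1 : (1:ℝ) ≤ M (Λ + 1) := by exact_mod_cast hM
  have hr := rm_pos hΛ hM m 0
  obtain ⟨Z, hZ⟩ := exists_nat_ge ((m:ℝ) / rm (Λ + 1) (M (Λ + 1)) m 0)
  refine detM hD (N := fun i => N i (1 / ((m:ℝ) + 1))) (η := 1 / ((m:ℝ) + 1)) hγ hε hΛ
    (hpar (Λ + 1) hΛ) (m := m) (Z := Z) le_rfl (hfew (Λ + 1) m Z hΛ) (κ := κ) (g := g)
    (fun i y hy z s h3 h4 => hT i f _ s (g i y) z (by positivity) (hy.2.2.1 i).1 h3 h4)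
    (fun i y hy => (hy.2.2.1 i).2) (fun y hy => hy.2.2.2.1)
    (X0 := (m:ℝ)) (fun y hy => ⟨hy.1.2.1, fun i => (hy.2.1 i).2.1⟩) hZ
    (fun y hy y' hy' => ?_) ?_ ?_
  · have h3 : ‖y - (rm (Λ + 1) (M (Λ + 1)) m 0 : ℂ) * qc q‖ ≤ rm (Λ + 1) (M (Λ + 1)) m 0 :=
      hy.2.2.2.2
    have h4 : ‖y' - (rm (Λ + 1) (M (Λ + 1)) m 0 : ℂ) * qc q‖ ≤ rm (Λ + 1) (M (Λ + 1)) m 0 :=
      hy'.2.2.2.2
    have h5 : dist y y' ≤ dist y ((rm (Λ + 1) (M (Λ + 1)) m 0 : ℂ) * qc q) +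
        dist y' ((rm (Λ + 1) (M (Λ + 1)) m 0 : ℂ) * qc q) := by
      have := dist_triangle y ((rm (Λ + 1) (M (Λ + 1)) m 0 : ℂ) * qc q) y'
      rwa [dist_comm ((rm (Λ + 1) (M (Λ + 1)) m 0 : ℂ) * qc q) y'] at this
    rw [dist_eq_norm y ((rm (Λ + 1) (M (Λ + 1)) m 0 : ℂ) * qc q),
      dist_eq_norm y' ((rm (Λ + 1) (M (Λ + 1)) m 0 : ℂ) * qc q)] at h5
    have h6 : rm (Λ + 1) (M (Λ + 1)) m 0 ≤ M (Λ + 1) * rm (Λ + 1) (M (Λ + 1)) m 0 :=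
      le_mul_of_one_le_left hr.le hM1
    linarith
  · intro y hy ρ hρ hρ'
    obtain ⟨L, h3, h4, h5⟩ := hy.1.2.2 ρ hρ hρ'
    exact ⟨L, h3, h4, fun y' hy' h => h5 y' hy'.1.1 h⟩
  · intro i y hy ρ hρ hρ'
    obtain ⟨L, h3, h4, h5⟩ := (hy.2.1 i).2.2 ρ hρ hρ'
    exact ⟨L, h3, h4, fun y' hy' h => h5 y' hy'.1.1 h⟩

/-- The uniform bound for several maps. -/
theorem several_ae {μ : Measure C(unitInterval, ℂ)} {D : ℂ → ℝ}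
    (hD : ∀ x y : ℂ, D y ≤ D x + ‖y - x‖)
    {N : Fin n → ℝ → ℂ → ℝ → Set C(unitInterval, ℂ)}
    {T : Fin n → ℝ → C(unitInterval, ℂ) → Set ℂ}
    (hTa : ∀ (i : Fin n) (f : C(unitInterval, ℂ)) (η η' : ℝ), η ≤ η' → T i η' f ⊆ T i η f)
    (hT : ∀ (i : Fin n) (f : C(unitInterval, ℂ)) (η s : ℝ) (w z : ℂ), 0 < η → w ∈ T i η f →
      dist w z < s → 8 * s ≤ η → f ∈ N i η z s)
    {α C : ℝ} (hα : 0 ≤ α) (hC : 0 < C)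
    (hmesh : ∀ η : ℝ, 0 < η → MeshM μ (fun i => N i η) D η α C)
    {K : Set ℂ} {s : ℝ} (hK : ∀ s', s < s' → Hom K s') :
    ∀ᵐ f ∂μ, ∀ A : Set ℂ, Modelled K A → ∀ g : Fin n → ℂ → ℂ,
      (∀ i, ∀ y ∈ A, ∃ L : ℂ ≃L[ℝ] ℂ, HasFDerivWithinAt (g i) (L : ℂ →L[ℝ] ℂ) A y) →
      (∀ y ∈ A, ∀ i, g i y ∈ (⋃ l : ℕ, T i (1 / ((l:ℝ) + 1)) f) ∧ 0 < D (g i y)) →
      (∀ y ∈ A, ∀ i i', i ≠ i' → g i y ≠ g i' y) →
      dimH A ≤ ENNReal.ofReal (s - α) := by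
  set s0 : ℝ := max s α with hs0
  set c : ℕ → ℕ → ℝ := fun Λ k => (1936 * (((16 * Λ ^ 2 : ℕ) : ℝ)) ^ 2 * cg C k) ^ n with hc
  have hcpos : ∀ Λ, 1 ≤ Λ → ∀ k, 0 < c Λ k := by
    intro Λ hΛ k
    have h1 := cg_one hC k
    have h2 : (1:ℝ) ≤ Λ := by exact_mod_cast hΛ
    rw [hc]
    push_cast
    positivity
  have key : ∀ e : ℕ, ∃ (C2 : ℕ → ℝ) (k M : ℕ → ℕ), ∀ Λ, 1 ≤ Λ →
      ParM n (c Λ (k Λ)) (C2 Λ) (s0 + 1 / ((e:ℝ) + 1) - α) (1 / ((e:ℝ) + 1)) Λ (k Λ) (M Λ) ∧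
      0 < C2 Λ ∧ ∀ (r : ℝ) (k : ℂ), 0 < r → 420 * Λ * r * M Λ ≤ 1 →
        OkF α (fam K Λ (M Λ) r k) 20 (10 * M Λ)
          (C2 Λ * (M Λ : ℝ) ^ (s0 + 1 / ((e:ℝ) + 1) - α)) := by
    intro e
    have he : (0:ℝ) < 1 / ((e:ℝ) + 1) := by positivity
    have h1 : s < s0 + 1 / ((e:ℝ) + 1) := by
      have := le_max_left s α
      linarith
    have h2 : α < s0 + 1 / ((e:ℝ) + 1) := by
      have := le_max_right s α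
      linarith
    have hch : ∀ Λ : ℕ, ∃ (C2 : ℝ) (k M : ℕ), 1 ≤ Λ →
        ParM n (c Λ k) C2 (s0 + 1 / ((e:ℝ) + 1) - α) (1 / ((e:ℝ) + 1)) Λ k M ∧ 0 < C2 ∧
        ∀ (r : ℝ) (k : ℂ), 0 < r → 420 * Λ * r * M ≤ 1 →
          OkF α (fam K Λ M r k) 20 (10 * M)
            (C2 * (M : ℝ) ^ (s0 + 1 / ((e:ℝ) + 1) - α)) := by
      intro Λ
      by_cases hΛ : 1 ≤ Λ
      · obtain ⟨C2, hC2, h3⟩ := fam_ok hα h2 (hK _ h1) hΛ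
        obtain ⟨k, M, hp⟩ := exists_parM n (c := c Λ) (hcpos Λ hΛ) hC2
          (γ := s0 + 1 / ((e:ℝ) + 1) - α) (by linarith) he Λ
        exact ⟨C2, k, M, fun _ => ⟨hp, hC2, fun r k hr h4 => h3 M r k
          (by have := hp.two; omega) hr h4⟩⟩
      · exact ⟨0, 0, 0, fun h => absurd h hΛ⟩
    choose C2 k M h using hch
    exact ⟨C2, k, M, h⟩
  choose C2 k M hkey using key
  have hae : ∀ᵐ f ∂μ, ∀ e Λ m Z : ℕ, 1 ≤ Λ → FewM D (fun i => N i (1 / ((m:ℝ) + 1))) K Λ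
      (M e Λ) ⌈(M e Λ:ℝ) ^ (s0 + 1 / ((e:ℝ) + 1) - α + 1 / ((e:ℝ) + 1))⌉₊
      (1 / ((e:ℝ) + 1)) m Z f := by
    rw [ae_all_iff]; intro e
    rw [ae_all_iff]; intro Λ
    rw [ae_all_iff]; intro m
    rw [ae_all_iff]; intro Z
    by_cases hΛ : 1 ≤ Λ
    · obtain ⟨h1, h2, h3⟩ := hkey e Λ hΛ
      filter_upwards [few_aeM hC (hmesh (1 / ((m:ℝ) + 1)) (by positivity)) h2 (by positivity)
        hΛ h3 h1 m Z le_rfl] with f hf _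
      exact hf
    · exact Filter.Eventually.of_forall fun f h => absurd h hΛ
  filter_upwards [hae] with f hf A hAm g hg h1 h2
  have hb : ∀ e : ℕ, dimH A ≤ ENNReal.ofReal ((s0 - α) + 7 * (1 / ((e:ℝ) + 1))) := by
    intro e
    have he : (0:ℝ) < 1 / ((e:ℝ) + 1) := by positivity
    have hγ : 0 < s0 + 1 / ((e:ℝ) + 1) - α := by
      have := le_max_right s α
      linarith
    have h3 := det_allM hD hTa hT (f := f) (K := K) (A := A) (c := c) hγ he (C2 e) (k e) (M e)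
      (fun Λ hΛ => (hkey e Λ hΛ).1) (fun Λ m Z hΛ => hf e Λ m Z hΛ)
      (modelled_goodM hAm hg (M e) (fun Λ hΛ => by have := (hkey e Λ hΛ).1.two; omega)) h1 h2
    refine h3.trans (ENNReal.ofReal_le_ofReal (le_of_eq ?_))
    ring
  have hlim2 : Tendsto (fun e : ℕ => ENNReal.ofReal ((s0 - α) + 7 * (1 / ((e:ℝ) + 1)))) atTop
      (𝓝 (ENNReal.ofReal (s0 - α))) := by
    refine ENNReal.tendsto_ofReal ?_
    have h1 := (tendsto_one_div_add_atTop_nhds_zero_nat (𝕜 := ℝ)).const_mul (7:ℝ)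
    have h2 := h1.const_add (s0 - α)
    simpa using h2
  refine (ge_of_tendsto' hlim2 hb).trans (le_of_eq ?_)
  rcases le_or_gt s α with h | h
  · rw [hs0, max_eq_right h, sub_self, ENNReal.ofReal_zero, ENNReal.ofReal_of_nonpos (by linarith)]
  · rw [hs0, max_eq_left h.le]

end K93M
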