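import Pool.Agent.K3h93.UM.Gen

/-!
The families of configurations with maps, and the choice of the parameters.
-/

namespace K93M

open H974 Finset H342P H984P H984N H443P H443U K93U K93G Filter Topology

/-- Rounding. -/
noncomputable def rd (z : ℂ) : ℤ × ℤ := (exists_round z).choose

theorem rd_spec (z : ℂ) : ‖z - qc (rd z)‖ ≤ 1 ∧
    |((rd z).1 : ℝ)| ≤ ‖z‖ + 1 / 2 ∧ |((rd z).2 : ℝ)| ≤ ‖z‖ + 1 / 2 := (exists_round z).choose_spec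

theorem b0_le_norm (q : ℤ × ℤ) : (b0 q : ℝ) ≤ ‖qc q‖ := by
  have h := sd_le_norm q (0, 0)
  have e : qc (0, 0) = 0 := by
    apply Complex.ext <;> simp [qc]
  rw [e, sub_zero] at h
  exact h

theorem norm_le_b0 (q : ℤ × ℤ) : ‖qc q‖ ≤ 2 * (b0 q : ℝ) := by
  have h := norm_le_sd q (0, 0)
  have e : qc (0, 0) = 0 := by
    apply Complex.ext <;> simp [qc]
  rw [e, sub_zero] at h
  exact h

/-- The lattice map of a linear map. -/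
noncomputable def afn (Λ M : ℕ) (a b : ℤ × ℤ) (q : ℤ × ℤ) : ℤ × ℤ :=
  rd (lin (qc a / (60 * Λ * M : ℕ)) (qc b / (60 * Λ * M : ℕ)) (qc q) / (4 * Λ : ℕ))

theorem afn_exp {Λ M : ℕ} (hΛ : 1 ≤ Λ) {a b : ℤ × ℤ}
    (hB : Bil Λ (qc a / (60 * Λ * M : ℕ)) (qc b / (60 * Λ * M : ℕ))) (Q : Finset (ℤ × ℤ)) :
    Exp (16 * Λ ^ 2) Q (afn Λ M a b) := by
  have hΛ' : (1:ℝ) ≤ Λ := by exact_mod_cast hΛ
  have hC : ((4 * Λ : ℕ) : ℂ) ≠ 0 := by
    have : (4 * Λ : ℕ) ≠ 0 := by omega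
    exact_mod_cast this
  have h4 : ‖((4 * Λ : ℕ) : ℂ)‖ = 4 * Λ := by
    rw [Complex.norm_natCast]
    push_cast
    ring
  constructor
  · intro u _ v _
    set f := lin (qc a / (60 * Λ * M : ℕ)) (qc b / (60 * Λ * M : ℕ)) with hf
    have h1 := (hB (qc u - qc v)).1
    have h2 := (rd_spec (f (qc u) / (4 * Λ : ℕ))).1
    have h3 := (rd_spec (f (qc v) / (4 * Λ : ℕ))).1
    have e : f (qc u - qc v) = f (qc u) - f (qc v) := lin_sub _ _ _ _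
    have e2 : f (qc u) - f (qc v) = (4 * Λ : ℕ) * ((qc (afn Λ M a b u) - qc (afn Λ M a b v)) +
        (f (qc u) / (4 * Λ : ℕ) - qc (afn Λ M a b u)) -
        (f (qc v) / (4 * Λ : ℕ) - qc (afn Λ M a b v))) := by
      field_simp
      ring
    have h5 : ‖f (qc u) - f (qc v)‖ ≤
        4 * Λ * (‖qc (afn Λ M a b u) - qc (afn Λ M a b v)‖ + 2) := by
      rw [e2, norm_mul, h4]
      apply mul_le_mul_of_nonneg_left _ (by positivity)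
      refine (norm_sub_le _ _).trans ?_
      have := norm_add_le (qc (afn Λ M a b u) - qc (afn Λ M a b v))
        (f (qc u) / (4 * Λ : ℕ) - qc (afn Λ M a b u))
      have h2' : ‖f (qc u) / (4 * Λ : ℕ) - qc (afn Λ M a b u)‖ ≤ 1 := h2
      have h3' : ‖f (qc v) / (4 * Λ : ℕ) - qc (afn Λ M a b v)‖ ≤ 1 := h3
      linarith
    have h6 := sd_le_norm u v
    have h7 := norm_le_sd (afn Λ M a b u) (afn Λ M a b v)
    rw [← hf, e] at h1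
    have h8 : (H443U.sd u v : ℝ) ≤
        ((16 * Λ ^ 2 : ℕ) : ℝ) * (H443U.sd (afn Λ M a b u) (afn Λ M a b v) : ℝ) +
        ((16 * Λ ^ 2 : ℕ) : ℝ) := by
      push_cast
      have h9 : 2 * (Λ:ℝ) * ‖f (qc u) - f (qc v)‖ ≤ 2 * Λ * (4 * Λ *
          (2 * (H443U.sd (afn Λ M a b u) (afn Λ M a b v) : ℝ) + 2)) := by
        apply mul_le_mul_of_nonneg_left _ (by positivity)
        refine h5.trans ?_
        apply mul_le_mul_of_nonneg_left _ (by positivity)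
        linarith
      have h10 : 2 * (Λ:ℝ) * (4 * Λ *
          (2 * (H443U.sd (afn Λ M a b u) (afn Λ M a b v) : ℝ) + 2)) =
          16 * (Λ:ℝ) ^ 2 * (H443U.sd (afn Λ M a b u) (afn Λ M a b v) : ℝ) + 16 * (Λ:ℝ) ^ 2 := by
        ring
      linarith
    exact_mod_cast h8
  · intro u _
    set f := lin (qc a / (60 * Λ * M : ℕ)) (qc b / (60 * Λ * M : ℕ)) with hf
    have h1 := (hB (qc u)).1
    have h2 := (rd_spec (f (qc u) / (4 * Λ : ℕ))).1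
    have e2 : f (qc u) = (4 * Λ : ℕ) * (qc (afn Λ M a b u) +
        (f (qc u) / (4 * Λ : ℕ) - qc (afn Λ M a b u))) := by
      field_simp
      ring
    have h5 : ‖f (qc u)‖ ≤ 4 * Λ * (‖qc (afn Λ M a b u)‖ + 1) := by
      rw [e2, norm_mul, h4]
      apply mul_le_mul_of_nonneg_left _ (by positivity)
      refine (norm_add_le _ _).trans ?_
      have h2' : ‖f (qc u) / (4 * Λ : ℕ) - qc (afn Λ M a b u)‖ ≤ 1 := h2
      linarith
    have h6 := b0_le_norm u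
    have h7 := norm_le_b0 (afn Λ M a b u)
    have h8 : (b0 u : ℝ) ≤
        ((16 * Λ ^ 2 : ℕ) : ℝ) * (b0 (afn Λ M a b u) : ℝ) + ((16 * Λ ^ 2 : ℕ) : ℝ) := by
      push_cast
      have h9 : 2 * (Λ:ℝ) * ‖f (qc u)‖ ≤ 2 * Λ * (4 * Λ *
          (2 * (b0 (afn Λ M a b u) : ℝ) + 1)) := by
        apply mul_le_mul_of_nonneg_left _ (by positivity)
        refine h5.trans ?_
        apply mul_le_mul_of_nonneg_left _ (by positivity)
        linarith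
      have h10 : 2 * (Λ:ℝ) * (4 * Λ * (2 * (b0 (afn Λ M a b u) : ℝ) + 1)) =
          16 * (Λ:ℝ) ^ 2 * (b0 (afn Λ M a b u) : ℝ) + 8 * (Λ:ℝ) ^ 2 := by
        ring
      have h11 : 0 ≤ (Λ:ℝ) ^ 2 := by positivity
      linarith
    exact_mod_cast h8

theorem afn_bd {Λ M : ℕ} (hΛ : 1 ≤ Λ) {a b : ℤ × ℤ}
    (hB : Bil Λ (qc a / (60 * Λ * M : ℕ)) (qc b / (60 * Λ * M : ℕ))) {q : ℤ × ℤ}
    (hq : b0 q ≤ (10 * M : ℕ)) : b0 (afn Λ M a b q) ≤ (10 * M : ℕ) := by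
  have hΛ' : (1:ℝ) ≤ Λ := by exact_mod_cast hΛ
  have h1 := (hB (qc q)).2
  have h2 := norm_le_b0 q
  have h3 : (b0 q : ℝ) ≤ 10 * M := by exact_mod_cast hq
  have h4 : ‖lin (qc a / (60 * Λ * M : ℕ)) (qc b / (60 * Λ * M : ℕ)) (qc q) / (4 * Λ : ℕ)‖ ≤
      10 * M := by
    rw [norm_div, Complex.norm_natCast, div_le_iff₀ (by push_cast; positivity)]
    push_cast
    calc ‖lin (qc a / (60 * Λ * M)) (qc b / (60 * Λ * M)) (qc q)‖
        ≤ 2 * Λ * ‖qc q‖ := by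
          have := h1
          push_cast at this
          exact this
      _ ≤ 2 * Λ * (2 * (10 * M)) := by
          apply mul_le_mul_of_nonneg_left _ (by positivity)
          linarith
      _ = 10 * M * (4 * Λ) := by ring
  have h5 := rd_spec (lin (qc a / (60 * Λ * M : ℕ)) (qc b / (60 * Λ * M : ℕ)) (qc q) /
    (4 * Λ : ℕ))
  refine b0_le_of (a := 10 * M + 1 / 2) (h5.2.1.trans (by linarith)) (h5.2.2.trans (by linarith)) ?_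
  push_cast
  linarith

/-- The radius of the excluded box. -/
def B0 (Λ : ℕ) : ℕ := 640 * Λ ^ 2 + 1

theorem afn_lo {Λ M : ℕ} (hΛ : 1 ≤ Λ) {a b : ℤ × ℤ}
    (hB : Bil Λ (qc a / (60 * Λ * M : ℕ)) (qc b / (60 * Λ * M : ℕ))) {q : ℤ × ℤ}
    (hq : (B0 Λ : ℤ) ≤ b0 q) : 40 ≤ b0 (afn Λ M a b q) := by
  have h := (afn_exp hΛ hB {q}).one q (Finset.mem_singleton_self q)
  unfold B0 at hq
  push_cast at h hq
  by_contra hcon
  push Not at hcon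
  have h1 : b0 (afn Λ M a b q) ≤ 39 := by omega
  have h2 : (16 * (Λ:ℤ) ^ 2) * b0 (afn Λ M a b q) ≤ (16 * (Λ:ℤ) ^ 2) * 39 :=
    mul_le_mul_of_nonneg_left h1 (by positivity)
  linarith

open Classical in
/-- The admissible pairs of coefficients. -/
noncomputable def cfs (Λ M : ℕ) : Finset ((ℤ × ℤ) × (ℤ × ℤ)) :=
  (bx ((Λ + 1) * (60 * Λ * M)) ×ˢ bx ((Λ + 1) * (60 * Λ * M))).filter
    (fun p => Bil Λ (qc p.1 / (60 * Λ * M : ℕ)) (qc p.2 / (60 * Λ * M : ℕ)))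

theorem mem_cfs {Λ M : ℕ} {p : (ℤ × ℤ) × (ℤ × ℤ)} : p ∈ cfs Λ M ↔
    (b0 p.1 ≤ ((Λ + 1) * (60 * Λ * M) : ℕ) ∧ b0 p.2 ≤ ((Λ + 1) * (60 * Λ * M) : ℕ)) ∧
      Bil Λ (qc p.1 / (60 * Λ * M : ℕ)) (qc p.2 / (60 * Λ * M : ℕ)) := by
  classical
  unfold cfs
  rw [Finset.mem_filter, Finset.mem_product, mem_bx, mem_bx]

theorem card_cfs {Λ M : ℕ} (hΛ : 1 ≤ Λ) (hM : 1 ≤ M) : (cfs Λ M).card ≤ (241 * Λ ^ 2 * M) ^ 4 := by
  classical
  unfold cfs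
  refine (Finset.card_filter_le _ _).trans ?_
  rw [Finset.card_product, card_bx]
  have h1 : 2 * ((Λ + 1) * (60 * Λ * M)) + 1 ≤ 241 * Λ ^ 2 * M := by
    have h2 : Λ * M ≤ Λ ^ 2 * M := by
      apply Nat.mul_le_mul_right
      nlinarith
    have h3 : 1 ≤ Λ * M := Nat.one_le_iff_ne_zero.mpr (by positivity)
    nlinarith
  calc (2 * ((Λ + 1) * (60 * Λ * M)) + 1) ^ 2 * (2 * ((Λ + 1) * (60 * Λ * M)) + 1) ^ 2
      = (2 * ((Λ + 1) * (60 * Λ * M)) + 1) ^ 4 := by ring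
    _ ≤ (241 * Λ ^ 2 * M) ^ 4 := Nat.pow_le_pow_left h1 4

/-- Approximation of a linear map. -/
theorem approx {Λ M : ℕ} (hΛ : 1 ≤ Λ) (hM : 1 ≤ M) (L : ℂ →L[ℝ] ℂ)
    (hL1 : ∀ z, ‖L z‖ ≤ Λ * ‖z‖) (hL2 : ∀ z, ‖z‖ ≤ Λ * ‖L z‖) :
    ∃ p ∈ cfs Λ M, ∀ z, ‖L z - lin (qc p.1 / (60 * Λ * M : ℕ)) (qc p.2 / (60 * Λ * M : ℕ)) z‖ ≤
      2 * (1 / (60 * Λ * M : ℕ)) * ‖z‖ := by
  have hΛ' : (1:ℝ) ≤ Λ := by exact_mod_cast hΛ
  have hM' : (1:ℝ) ≤ M := by exact_mod_cast hM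
  obtain ⟨m, hm⟩ : ∃ m : ℕ, m = 60 * Λ * M := ⟨_, rfl⟩
  have hmR : (m:ℝ) = 60 * Λ * M := by rw [hm]; push_cast; ring
  have hΛM : (1:ℝ) ≤ Λ * M := by nlinarith
  have hm60 : (60:ℝ) ≤ m := by rw [hmR]; nlinarith
  have hm0 : (0:ℝ) < m := by linarith
  have hmC : (m : ℂ) ≠ 0 := by exact_mod_cast hm0.ne'
  have coef : ∀ c : ℂ, ‖c‖ ≤ Λ → ∃ a : ℤ × ℤ, b0 a ≤ ((Λ + 1) * (60 * Λ * M) : ℕ) ∧
      ‖c - qc a / (m : ℕ)‖ ≤ 1 / m := by
    intro c hc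
    obtain ⟨a, h1, h2, h3⟩ := exists_round ((m:ℂ) * c)
    have hn : ‖(m:ℂ) * c‖ ≤ m * Λ := by
      rw [norm_mul, Complex.norm_natCast]
      exact mul_le_mul_of_nonneg_left hc hm0.le
    refine ⟨a, b0_le_of (h2.trans (add_le_add hn le_rfl)) (h3.trans (add_le_add hn le_rfl)) ?_, ?_⟩
    · rw [← hm]
      push_cast
      nlinarith
    · have e : c - qc a / (m : ℕ) = ((m:ℂ) * c - qc a) / m := by field_simp
      rw [e, norm_div, Complex.norm_natCast]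
      exact div_le_div_of_nonneg_right h1 hm0.le
  have hα : ‖L 1‖ ≤ Λ := by
    have := hL1 1
    rwa [norm_one, mul_one] at this
  have hβ : ‖L Complex.I‖ ≤ Λ := by
    have := hL1 Complex.I
    rwa [Complex.norm_I, mul_one] at this
  obtain ⟨a, ha1, ha2⟩ := coef _ hα
  obtain ⟨b, hb1, hb2⟩ := coef _ hβ
  have hdiff : ∀ z, ‖L z - lin (qc a / (m:ℕ)) (qc b / (m:ℕ)) z‖ ≤ 2 * (1 / m) * ‖z‖ := by
    intro z
    rw [lin_of L z]
    exact lin_diff _ _ _ _ z ha2 hb2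
  have h2m : Λ * (2 * (1 / (m:ℝ))) ≤ 1 / 30 := by
    rw [hmR]
    have e : (Λ:ℝ) * (2 * (1 / (60 * Λ * M))) = 1 / (30 * M) := by
      have : (Λ:ℝ) ≠ 0 := by positivity
      have : (M:ℝ) ≠ 0 := by positivity
      field_simp
      norm_num
    rw [e]
    apply one_div_le_one_div_of_le (by norm_num)
    linarith
  have h2m' : 2 * (1 / (m:ℝ)) ≤ 1 / 30 := by
    have : 0 ≤ 2 * (1 / (m:ℝ)) := by positivity
    nlinarith
  have hbil : Bil Λ (qc a / (m:ℕ)) (qc b / (m:ℕ)) := by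
    intro z
    have h1 := hdiff z
    have hz := norm_nonneg z
    have hl := norm_nonneg (lin (qc a / (m:ℕ)) (qc b / (m:ℕ)) z)
    constructor
    · have h2 : ‖L z‖ ≤ ‖lin (qc a / (m:ℕ)) (qc b / (m:ℕ)) z‖ + 2 * (1 / m) * ‖z‖ := by
        have := norm_sub_norm_le (L z) (lin (qc a / (m:ℕ)) (qc b / (m:ℕ)) z)
        linarith
      have h3 := hL2 z
      have h4 : (Λ:ℝ) * ‖L z‖ ≤ Λ * ‖lin (qc a / (m:ℕ)) (qc b / (m:ℕ)) z‖ +
          Λ * (2 * (1 / m)) * ‖z‖ := by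
        have := mul_le_mul_of_nonneg_left h2 (by linarith : (0:ℝ) ≤ Λ)
        linarith
      have h5 : Λ * (2 * (1 / (m:ℝ))) * ‖z‖ ≤ 1 / 30 * ‖z‖ := mul_le_mul_of_nonneg_right h2m hz
      nlinarith
    · have h2 : ‖lin (qc a / (m:ℕ)) (qc b / (m:ℕ)) z‖ ≤ ‖L z‖ + 2 * (1 / m) * ‖z‖ := by
        have := norm_sub_norm_le (lin (qc a / (m:ℕ)) (qc b / (m:ℕ)) z) (L z)
        rw [norm_sub_rev] at this
        linarith
      have h3 := hL1 z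
      have h5 : 2 * (1 / (m:ℝ)) * ‖z‖ ≤ 1 / 30 * ‖z‖ := mul_le_mul_of_nonneg_right h2m' hz
      nlinarith
  rw [← hm]
  refine ⟨(a, b), mem_cfs.mpr ⟨⟨ha1, hb1⟩, ?_⟩, hdiff⟩
  rw [← hm]
  exact hbil

variable {n : ℕ}

open Classical in
/-- The family of configurations with maps. -/
noncomputable def famM (n : ℕ) (K : Set ℂ) (Λ M : ℕ) (r : ℝ) (k : ℂ) : Finset (Cf n) :=
  ((fam K Λ M r k) ×ˢ Fintype.piFinset (fun _ : Fin n => cfs Λ M)).image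
    (fun p => (p.1.filter (fun q => (B0 Λ : ℤ) ≤ b0 q), fun i => afn Λ M (p.2 i).1 (p.2 i).2))

/-- The bound for the number of configurations with maps. -/
def qN (n Λ M : ℕ) : ℕ := qM Λ M * ((241 * Λ ^ 2 * M) ^ 4) ^ n

theorem famM_card (n : ℕ) (K : Set ℂ) {Λ M : ℕ} (hΛ : 1 ≤ Λ) (hM : 1 ≤ M) (r : ℝ) (k : ℂ) :
    (famM n K Λ M r k).card ≤ qN n Λ M := by
  classical
  unfold famM qN
  refine Finset.card_image_le.trans ?_
  rw [Finset.card_product, Fintype.card_piFinset, Finset.prod_const, Finset.card_univ,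
    Fintype.card_fin]
  exact Nat.mul_le_mul (fam_card K hΛ hM r k) (Nat.pow_le_pow_left (card_cfs hΛ hM) n)

theorem famM_ok {α H : ℝ} {K : Set ℂ} {Λ M : ℕ} (hΛ : 1 ≤ Λ) {r : ℝ} {k : ℂ}
    (h : OkF α (fam K Λ M r k) 20 (10 * M) H) :
    OkM α (famM n K Λ M r k) (16 * Λ ^ 2) 20 (10 * M) H := by
  classical
  intro p hp
  unfold famM at hp
  obtain ⟨⟨Q, c⟩, hQc, rfl⟩ := Finset.mem_image.mp hp
  rw [Finset.mem_product] at hQc
  obtain ⟨hQ, hc⟩ := hQc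
  obtain ⟨h1, h2, h3⟩ := h Q hQ
  rw [Fintype.mem_piFinset] at hc
  have hB := fun i => (mem_cfs.mp (hc i)).2
  refine ⟨fun i => afn_exp hΛ (hB i) _, fun v hv i => ?_, ?_, fun u hu => ?_⟩
  · have hv' := Finset.mem_filter.mp hv
    refine ⟨?_, afn_bd hΛ (hB i) (h1 v hv'.1).2⟩
    have := afn_lo hΛ (hB i) hv'.2
    simpa using this
  · refine le_trans ?_ h2
    exact Finset.sum_le_sum_of_subset_of_nonneg (Finset.filter_subset _ _)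
      fun _ _ _ => (wt_pos _ _).le
  · refine le_trans ?_ (h3 u (Finset.mem_filter.mp hu).1)
    exact Finset.sum_le_sum_of_subset_of_nonneg (Finset.filter_subset _ _)
      fun _ _ _ => (wt_pos _ _).le

/-- Covering by the balls of one configuration, and the images. -/
theorem coverM {K : Set ℂ} {Λ M : ℕ} (hΛ : 1 ≤ Λ) (hM : 1 ≤ M) {r : ℝ} (hr : 0 < r)
    {x y0 k κ0 : ℂ} (hx : ‖y0 - x‖ ≤ r) (hk : ‖k - κ0‖ ≤ r) (L : ℂ →L[ℝ] ℂ)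
    (hL1 : ∀ z, ‖L z‖ ≤ Λ * ‖z‖) (hL2 : ∀ z, ‖z‖ ≤ Λ * ‖L z‖)
    (w0 x' : Fin n → ℂ) (hw : ∀ i, ‖w0 i - x' i‖ ≤ r) (L' : Fin n → ℂ →L[ℝ] ℂ)
    (hL1' : ∀ i z, ‖L' i z‖ ≤ Λ * ‖z‖) (hL2' : ∀ i z, ‖z‖ ≤ Λ * ‖L' i z‖) :
    ∃ p ∈ famM n K Λ M r k, ∀ y : ℂ, ‖y - y0‖ ≤ 8 * M * r →
      (∃ κ' ∈ K, ‖y - y0 - L (κ' - κ0)‖ ≤ r / 8) →
      ∃ q : ℤ × ℤ, b0 q ≤ (10 * M : ℕ) ∧ ‖y - gp x r q‖ ≤ r ∧ ((B0 Λ : ℤ) ≤ b0 q → q ∈ p.1) ∧
        ∀ i, ∀ w : ℂ, ‖w - w0 i - L' i (y - y0)‖ ≤ r / 8 →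
          ‖w - gp (x' i) (4 * Λ * r) (p.2 i q)‖ < 4 * (4 * Λ * r) := by
  classical
  have hΛ' : (1:ℝ) ≤ Λ := by exact_mod_cast hΛ
  have hM' : (1:ℝ) ≤ M := by exact_mod_cast hM
  obtain ⟨Q, hQ, hcov⟩ := cover_one hΛ hM hr hx hk L hL1 hL2
  choose c hc1 hc2 using fun i => approx hΛ hM (L' i) (hL1' i) (hL2' i)
  refine ⟨(Q.filter (fun q => (B0 Λ : ℤ) ≤ b0 q), fun i => afn Λ M (c i).1 (c i).2), ?_, ?_⟩
  · unfold famM
    refine Finset.mem_image.mpr ⟨(Q, c), ?_, rfl⟩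
    rw [Finset.mem_product, Fintype.mem_piFinset]
    exact ⟨hQ, hc1⟩
  · intro y hy hκ
    obtain ⟨q, hq1, hq2, hq3⟩ := hcov y hy hκ
    refine ⟨q, hq1, hq2, fun hB => Finset.mem_filter.mpr ⟨hq3 ?_, hB⟩, fun i w hw' => ?_⟩
    · unfold B0 at hB
      have : (1:ℤ) ≤ (Λ:ℤ) ^ 2 := by
        have : (1:ℤ) ≤ Λ := by exact_mod_cast hΛ
        nlinarith
      push_cast at hB
      linarith
    · rw [gp_eq]
      show ‖w - (x' i + ((4 * Λ * r : ℝ) : ℂ) * qc (afn Λ M (c i).1 (c i).2 q))‖ < _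
      set f := lin (qc (c i).1 / (60 * Λ * M : ℕ)) (qc (c i).2 / (60 * Λ * M : ℕ)) with hf
      have hC : ((4 * Λ : ℕ) : ℂ) ≠ 0 := by
        have : (4 * Λ : ℕ) ≠ 0 := by omega
        exact_mod_cast this
      have hrd := (rd_spec (f (qc q) / (4 * Λ : ℕ))).1
      have hrd' : ‖f (qc q) / (4 * Λ : ℕ) - qc (afn Λ M (c i).1 (c i).2 q)‖ ≤ 1 := hrd
      have hcc := hc2 i ((r : ℂ) * qc q)
      have hfr : f ((r : ℂ) * qc q) = r * f (qc q) := by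
        rw [hf]
        unfold lin
        simp only [Complex.re_ofReal_mul, Complex.im_ofReal_mul]
        push_cast
        ring
      have e : w - (x' i + ((4 * Λ * r : ℝ) : ℂ) * qc (afn Λ M (c i).1 (c i).2 q)) =
          (w - w0 i - L' i (y - y0)) + (w0 i - x' i) +
          (L' i (y - y0) - L' i ((r : ℂ) * qc q)) +
          (L' i ((r : ℂ) * qc q) - f ((r : ℂ) * qc q)) +
          ((4 * Λ * r : ℝ) : ℂ) * (f (qc q) / (4 * Λ : ℕ) - qc (afn Λ M (c i).1 (c i).2 q)) := by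
        rw [hfr]
        have hΛC : (Λ : ℂ) ≠ 0 := by
          have : Λ ≠ 0 := by omega
          exact_mod_cast this
        push_cast
        field_simp
        ring
      have t3 : ‖L' i (y - y0) - L' i ((r : ℂ) * qc q)‖ ≤ 2 * Λ * r := by
        rw [← map_sub]
        refine (hL1' i _).trans ?_
        have h1 : ‖y - y0 - (r : ℂ) * qc q‖ ≤ 2 * r := by
          rw [gp_eq] at hq2
          have e1 : y - y0 - (r : ℂ) * qc q = (y - (x + r * qc q)) - (y0 - x) := by ring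
          rw [e1]
          have := norm_sub_le (y - (x + r * qc q)) (y0 - x)
          linarith
        calc (Λ:ℝ) * ‖y - y0 - (r : ℂ) * qc q‖ ≤ Λ * (2 * r) :=
              mul_le_mul_of_nonneg_left h1 (by positivity)
          _ = 2 * Λ * r := by ring
      have t4 : ‖L' i ((r : ℂ) * qc q) - f ((r : ℂ) * qc q)‖ ≤ r := by
        refine hcc.trans ?_
        rw [norm_mul, Complex.norm_real, Real.norm_eq_abs, abs_of_pos hr]
        have h1 := norm_le_b0 q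
        have h2 : (b0 q : ℝ) ≤ 10 * M := by exact_mod_cast hq1
        push_cast
        have h3 : 2 * (1 / (60 * (Λ:ℝ) * M)) * (r * ‖qc q‖) ≤
            2 * (1 / (60 * (Λ:ℝ) * M)) * (r * (20 * M)) := by
          apply mul_le_mul_of_nonneg_left _ (by positivity)
          apply mul_le_mul_of_nonneg_left _ hr.le
          linarith
        refine h3.trans ?_
        have h4 : 2 * (1 / (60 * (Λ:ℝ) * M)) * (r * (20 * M)) = 2 / 3 * (r / Λ) := by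
          have h5 : (Λ:ℝ) ≠ 0 := by positivity
          have h6 : (M:ℝ) ≠ 0 := by positivity
          field_simp
          norm_num
        rw [h4]
        have h7 : r / Λ ≤ r := div_le_self hr.le hΛ'
        linarith
      have t5 : ‖((4 * Λ * r : ℝ) : ℂ) * (f (qc q) / (4 * Λ : ℕ) -
          qc (afn Λ M (c i).1 (c i).2 q))‖ ≤ 4 * Λ * r := by
        rw [norm_mul, Complex.norm_real, Real.norm_eq_abs, abs_of_pos (by positivity)]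
        calc 4 * (Λ:ℝ) * r * ‖f (qc q) / (4 * Λ : ℕ) - qc (afn Λ M (c i).1 (c i).2 q)‖
            ≤ 4 * Λ * r * 1 := mul_le_mul_of_nonneg_left hrd' (by positivity)
          _ = _ := mul_one _
      rw [e]
      have n1 := norm_add_le ((w - w0 i - L' i (y - y0)) + (w0 i - x' i) +
          (L' i (y - y0) - L' i ((r : ℂ) * qc q)) +
          (L' i ((r : ℂ) * qc q) - f ((r : ℂ) * qc q)))
          (((4 * Λ * r : ℝ) : ℂ) * (f (qc q) / (4 * Λ : ℕ) - qc (afn Λ M (c i).1 (c i).2 q)))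
      have n2 := norm_add_le ((w - w0 i - L' i (y - y0)) + (w0 i - x' i) +
          (L' i (y - y0) - L' i ((r : ℂ) * qc q)))
          (L' i ((r : ℂ) * qc q) - f ((r : ℂ) * qc q))
      have n3 := norm_add_le ((w - w0 i - L' i (y - y0)) + (w0 i - x' i))
          (L' i (y - y0) - L' i ((r : ℂ) * qc q))
      have n4 := norm_add_le (w - w0 i - L' i (y - y0)) (w0 i - x' i)
      have n5 := hw i
      have h7 : r ≤ Λ * r := le_mul_of_one_le_left hr.le hΛ'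
      linarith

/-- The conditions for the scale ratio `M`. -/
structure ParM (n : ℕ) (c C2 γ ε : ℝ) (Λ k M : ℕ) : Prop where
  two : 2 ≤ M
  pr : (qN n Λ M : ℝ) * (c * ((k + 1) * (C2 * (M:ℝ) ^ γ)) / ⌈(M:ℝ) ^ (γ + ε)⌉₊) ^ k ≤
    (M:ℝ) ^ (-((2 * n + 6) / ε))
  gd : ((⌈(M:ℝ) ^ (γ + ε)⌉₊ + (2 * B0 Λ + 1) ^ 2 : ℕ) : ℝ) ≤ (M:ℝ) ^ (γ + 2 * ε)
  bd : (((20 * M + 1) ^ 2 : ℕ) : ℝ) ≤ (M:ℝ) ^ (3 : ℝ)

theorem exists_parM (n : ℕ) {c : ℕ → ℝ} (hc : ∀ k, 0 < c k) {C2 : ℝ} (hC2 : 0 < C2) {γ ε : ℝ}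
    (hγ : 0 < γ) (hε : 0 < ε) (Λ : ℕ) : ∃ k M : ℕ, ParM n (c k) C2 γ ε Λ k M := by
  obtain ⟨k, hk⟩ := exists_nat_ge ((4 + 4 * n + 2 * ((2 * n + 6) / ε)) / ε)
  have hkε : 4 + 4 * n + 2 * ((2 * n + 6) / ε) ≤ ε * k := by
    rw [div_le_iff₀ hε] at hk
    linarith
  have hcc := hc k
  set c5 : ℝ := c k * ((k + 1) * C2) with hc5
  have hc5' : 0 < c5 := by positivity
  set c6 : ℝ := ((241 * (Λ:ℝ) ^ 2) ^ 4 * (9 * Λ) ^ 2 * ((241 * (Λ:ℝ) ^ 2) ^ 4) ^ n) * c5 ^ k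
    with hc6
  have hc6' : 0 ≤ c6 := by positivity
  have e1 : ∀ᶠ M : ℕ in atTop, c6 ≤ (M:ℝ) ^ ((2 * n + 6) / ε) := ev_rpow (by positivity) _
  have e2 : ∀ᶠ M : ℕ in atTop, (((2 * B0 Λ + 1) ^ 2 + 2 : ℕ) : ℝ) ≤ (M:ℝ) ^ ε := ev_rpow hε _
  have e3 : ∀ᶠ M : ℕ in atTop, (441:ℝ) ≤ (M:ℝ) ^ (1:ℝ) := ev_rpow one_pos _
  obtain ⟨M, h1, h2, h3, h4⟩ := (e1.and (e2.and (e3.and (eventually_ge_atTop 2)))).exists
  refine ⟨k, M, ?_⟩
  have hM0 : (0:ℝ) < M := by exact_mod_cast (by omega : 0 < M)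
  have hM1 : (1:ℝ) ≤ M := by exact_mod_cast (by omega : 1 ≤ M)
  have hG : (M:ℝ) ^ (γ + ε) ≤ ⌈(M:ℝ) ^ (γ + ε)⌉₊ := Nat.le_ceil _
  have hp0 : 0 < (M:ℝ) ^ (γ + ε) := by positivity
  refine ⟨h4, ?_, ?_, ?_⟩
  · have a1 : c k * ((k + 1) * (C2 * (M:ℝ) ^ γ)) / ⌈(M:ℝ) ^ (γ + ε)⌉₊ ≤
        c5 * (M:ℝ) ^ (-ε) := by
      have a2 : c k * ((k + 1) * (C2 * (M:ℝ) ^ γ)) = c5 * (M:ℝ) ^ γ := by
        rw [hc5]; ring
      rw [a2]
      calc c5 * (M:ℝ) ^ γ / ⌈(M:ℝ) ^ (γ + ε)⌉₊ ≤ c5 * (M:ℝ) ^ γ / (M:ℝ) ^ (γ + ε) :=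
            div_le_div_of_nonneg_left (by positivity) hp0 hG
        _ = c5 * (M:ℝ) ^ (-ε) := by
            rw [mul_div_assoc, ← Real.rpow_sub hM0]
            ring_nf
    have a3 : (qN n Λ M : ℝ) = ((241 * (Λ:ℝ) ^ 2) ^ 4 * (9 * Λ) ^ 2 *
        ((241 * (Λ:ℝ) ^ 2) ^ 4) ^ n) * (M:ℝ) ^ (4 + 4 * n : ℕ) := by
      unfold qN qM
      push_cast
      rw [pow_add, pow_mul (M:ℝ) 4 n, mul_pow (241 * (Λ:ℝ) ^ 2) (M:ℝ) 4,
        mul_pow ((241 * (Λ:ℝ) ^ 2) ^ 4) ((M:ℝ) ^ 4) n]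
      ring
    calc (qN n Λ M : ℝ) * (c k * ((k + 1) * (C2 * (M:ℝ) ^ γ)) / ⌈(M:ℝ) ^ (γ + ε)⌉₊) ^ k
        ≤ (qN n Λ M : ℝ) * (c5 * (M:ℝ) ^ (-ε)) ^ k := by
          apply mul_le_mul_of_nonneg_left _ (Nat.cast_nonneg _)
          exact pow_le_pow_left₀ (by positivity) a1 k
      _ = c6 * ((M:ℝ) ^ (4 + 4 * n:ℝ) * (M:ℝ) ^ (-(ε * k))) := by
          have a4 : (c5 * (M:ℝ) ^ (-ε)) ^ k = c5 ^ k * (M:ℝ) ^ (-(ε * k)) := by
            rw [mul_pow]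
            congr 1
            rw [← Real.rpow_natCast ((M:ℝ) ^ (-ε)), ← Real.rpow_mul hM0.le]
            congr 1
            ring
          have a5 : (M:ℝ) ^ (4 + 4 * n:ℕ) = (M:ℝ) ^ (4 + 4 * n:ℝ) := by
            rw [← Real.rpow_natCast (M:ℝ) (4 + 4 * n)]
            push_cast
            rfl
          rw [a3, a4, a5, hc6]
          ring
      _ ≤ (M:ℝ) ^ ((2 * n + 6) / ε) * (M:ℝ) ^ (-(2 * ((2 * n + 6) / ε))) := by
          apply mul_le_mul h1 _ (by positivity) (by positivity)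
          rw [← Real.rpow_add hM0]
          exact Real.rpow_le_rpow_of_exponent_le hM1 (by linarith)
      _ = (M:ℝ) ^ (-((2 * n + 6) / ε)) := by
          rw [← Real.rpow_add hM0]
          congr 1
          ring
  · have b1 : (⌈(M:ℝ) ^ (γ + ε)⌉₊ : ℝ) < (M:ℝ) ^ (γ + ε) + 1 := Nat.ceil_lt_add_one hp0.le
    have b2 : 1 ≤ (M:ℝ) ^ (γ + ε) := Real.one_le_rpow hM1 (by linarith)
    have b3 : (M:ℝ) ^ (γ + 2 * ε) = (M:ℝ) ^ (γ + ε) * (M:ℝ) ^ ε := by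
      rw [← Real.rpow_add hM0]; congr 1; ring
    rw [b3]
    rw [Nat.cast_add] at h2 ⊢
    have b4 : (0:ℝ) ≤ (((2 * B0 Λ + 1) ^ 2 : ℕ) : ℝ) := Nat.cast_nonneg _
    push_cast at h2 b4 ⊢
    nlinarith
  · rw [Real.rpow_one] at h3
    have : (M:ℝ) ^ (3:ℝ) = (M:ℝ) ^ 3 := by
      rw [← Real.rpow_natCast]; norm_num
    rw [this]
    push_cast
    have c1 : (20 * (M:ℝ) + 1) ^ 2 ≤ (21 * M) ^ 2 := by
      apply pow_le_pow_left₀ (by positivity)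
      linarith
    have c2 : (21 * (M:ℝ)) ^ 2 = 441 * (M:ℝ) ^ 2 := by ring
    have c3 : 441 * (M:ℝ) ^ 2 ≤ M * (M:ℝ) ^ 2 := mul_le_mul_of_nonneg_right h3 (by positivity)
    calc (20 * (M:ℝ) + 1) ^ 2 ≤ M * (M:ℝ) ^ 2 := by linarith
      _ = (M:ℝ) ^ 3 := by ring

end K93M
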